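import Pool.Agent.N766.CS.Mom
import Pool.Agent.TH926.EH.Fin

/-!
Sparse sets of characters: one dyadic block of conductors.
-/

set_option autoImplicit false

open Finset

namespace Pool.Agent.N766.CS

open Pool.Agent.H398R2.BV (Prim)
open Pool.Agent.Helper112
open Pool.Agent.H441R3.BV (PS PS_change)
open Pool.Agent.TH926.EH (Gs Gs_nonneg)
open Classical

/-- the reduced size of the character sum -/
noncomputable def gg (N q : ℕ) (χ : DirichletCharacter ℂ q) : ℝ :=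
  max (‖PS N q χ‖ - (q.primeFactors.card : ℝ)) 0

lemma gg_nonneg (N q : ℕ) (χ : DirichletCharacter ℂ q) : 0 ≤ gg N q χ := le_max_right _ _

lemma PS_le_gg (N q : ℕ) (χ : DirichletCharacter ℂ q) :
    ‖PS N q χ‖ ≤ gg N q χ + (q.primeFactors.card : ℝ) := by
  unfold gg
  have := le_max_left (‖PS N q χ‖ - (q.primeFactors.card : ℝ)) 0
  linarith

lemma gg_change (N d f : ℕ) (hd : d ≠ 0) (h : f ∣ d) (ψ : DirichletCharacter ℂ f) :
    gg N d (DirichletCharacter.changeLevel h ψ) ≤ ‖PS N f ψ‖ := by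
  unfold gg
  apply max_le _ (norm_nonneg _)
  have := PS_change N d f hd h ψ
  linarith

/-- harmonic sum over the multiples of `f` -/
lemma sum_mult (Q f : ℕ) (hf : 1 ≤ f) :
    ∑ q ∈ (Icc 1 Q).filter (fun q => f ∣ q), (1 / (q : ℝ)) ≤ (1 / (f : ℝ)) * (1 + Real.log Q) := by
  have hf0 : (0 : ℝ) < f := by exact_mod_cast hf
  have h1 : (Icc 1 Q).filter (fun q => f ∣ q) ⊆ (Icc 1 (Q / f)).image (fun m => f * m) := by
    intro q hq
    rw [mem_filter, mem_Icc] at hq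
    obtain ⟨⟨h1, h2⟩, m, rfl⟩ := hq
    rw [mem_image]
    refine ⟨m, ?_, rfl⟩
    rw [mem_Icc]
    constructor
    · rcases Nat.eq_zero_or_pos m with h | h
      · subst h; simp at h1
      · exact h
    · rw [Nat.le_div_iff_mul_le hf]; rw [mul_comm]; exact h2
  have h2 : ∑ q ∈ (Icc 1 Q).filter (fun q => f ∣ q), (1 / (q : ℝ)) ≤
      ∑ m ∈ Icc 1 (Q / f), (1 / ((f * m : ℕ) : ℝ)) := by
    refine (sum_le_sum_of_subset_of_nonneg h1 fun _ _ _ => by positivity).trans ?_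
    apply sum_image_le_of_nonneg
    intro _ _
    positivity
  refine h2.trans ?_
  have h3 : ∀ m ∈ Icc 1 (Q / f), (1 / ((f * m : ℕ) : ℝ)) = (1 / (f : ℝ)) * ((m : ℝ)⁻¹) := by
    intro m _
    push_cast
    rw [one_div, one_div, mul_inv]
  rw [sum_congr rfl h3, ← mul_sum]
  apply mul_le_mul_of_nonneg_left _ (by positivity)
  have h4 : ∑ m ∈ Icc 1 (Q / f), ((m : ℝ)⁻¹) = ((harmonic (Q / f) : ℚ) : ℝ) := by
    rw [harmonic_eq_sum_Icc]
    push_cast
    rfl
  rw [h4]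
  rcases Nat.eq_zero_or_pos (Q / f) with h | h
  · rw [h]
    simp only [harmonic_zero, Rat.cast_zero]
    have := Real.log_natCast_nonneg Q
    linarith
  · refine (harmonic_le_one_add_log _).trans ?_
    have : Real.log ((Q / f : ℕ) : ℝ) ≤ Real.log Q := by
      apply Real.log_le_log (by exact_mod_cast h)
      exact_mod_cast Nat.div_le_self Q f
    linarith

/-- from moduli to conductors -/
lemma swap1 (Q : ℕ) (G : ℕ → ℝ) (hG : ∀ f, 0 ≤ G f) :
    ∑ q ∈ Icc 1 Q, (1 / (q : ℝ)) * ∑ f ∈ q.divisors.filter (fun f => f ≠ 1), G f ≤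
      (1 + Real.log Q) * ∑ f ∈ Icc 2 Q, (1 / (f : ℝ)) * G f := by
  have e1 : ∀ q ∈ Icc 1 Q, (1 / (q : ℝ)) * ∑ f ∈ q.divisors.filter (fun f => f ≠ 1), G f =
      ∑ f ∈ Icc 2 Q, if f ∣ q then (1 / (q : ℝ)) * G f else 0 := by
    intro q hq
    rw [mem_Icc] at hq
    rw [← sum_filter, mul_sum]
    apply sum_congr _ fun _ _ => rfl
    ext f
    rw [mem_filter, mem_filter, Nat.mem_divisors, mem_Icc]
    constructor
    · rintro ⟨⟨h1, h2⟩, h3⟩
      have h4 : f ≤ q := Nat.le_of_dvd (by omega) h1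
      have h5 : f ≠ 0 := by rintro rfl; rw [zero_dvd_iff] at h1; omega
      exact ⟨⟨by omega, by omega⟩, h1⟩
    · rintro ⟨⟨h1, h2⟩, h3⟩
      exact ⟨⟨h3, by omega⟩, by omega⟩
  rw [sum_congr rfl e1, sum_comm, mul_sum]
  apply sum_le_sum
  intro f hf
  rw [mem_Icc] at hf
  have h1 := sum_mult Q f (by omega)
  rw [← sum_filter, ← sum_mul]
  calc (∑ q ∈ (Icc 1 Q).filter (fun q => f ∣ q), (1 / (q : ℝ))) * G f
      ≤ ((1 / (f : ℝ)) * (1 + Real.log Q)) * G f := mul_le_mul_of_nonneg_right h1 (hG f)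
    _ = _ := by ring

/-- the characters of a set with conductor in `(a, b]` -/
noncomputable def blk {q : ℕ} (S : Finset (DirichletCharacter ℂ q)) (a b : ℕ) :
    Finset (DirichletCharacter ℂ q) :=
  S.filter (fun χ => χ ≠ 1 ∧ a < χ.conductor ∧ χ.conductor ≤ b)

lemma mem_blk {q : ℕ} {S : Finset (DirichletCharacter ℂ q)} {a b : ℕ}
    {χ : DirichletCharacter ℂ q} :
    χ ∈ blk S a b ↔ χ ∈ S ∧ χ ≠ 1 ∧ a < χ.conductor ∧ χ.conductor ≤ b := by
  unfold blk
  rw [mem_filter]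

/-- sums over the characters modulo `d` with conductor in a range -/
lemma cond_range (N d a b k : ℕ) (hd : 1 ≤ d) (S : Finset (DirichletCharacter ℂ d)) :
    ∑ χ ∈ blk S a b, gg N d χ ^ k ≤
      ∑ f ∈ d.divisors.filter (fun f => f ≠ 1),
        (if a < f ∧ f ≤ b then ∑ ψ ∈ Prim f, ‖PS N f ψ‖ ^ k else 0) := by
  have : NeZero d := ⟨by omega⟩
  have h1 := BLB.step2 d
    (fun χ => if a < χ.conductor ∧ χ.conductor ≤ b then gg N d χ ^ k else 0)
    (fun χ => by split_ifs; exacts [pow_nonneg (gg_nonneg _ _ _) _, le_rfl])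
    (fun f ψ => if a < ψ.conductor ∧ ψ.conductor ≤ b then ‖PS N f ψ‖ ^ k else 0) (by
      intro f hf ψ
      rw [DirichletCharacter.conductor_changeLevel]
      split_ifs
      · exact pow_le_pow_left₀ (gg_nonneg _ _ _) (gg_change N d f (by omega) hf ψ) k
      · exact le_rfl)
  have h2 : ∑ f ∈ d.divisors.filter (fun f => f ≠ 1),
        ∑ ψ ∈ (univ : Finset (DirichletCharacter ℂ f)).filter (fun χ => χ.IsPrimitive),
          (if a < ψ.conductor ∧ ψ.conductor ≤ b then ‖PS N f ψ‖ ^ k else 0) =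
      ∑ f ∈ d.divisors.filter (fun f => f ≠ 1),
        (if a < f ∧ f ≤ b then ∑ ψ ∈ Prim f, ‖PS N f ψ‖ ^ k else 0) := by
    apply sum_congr rfl
    intro f _
    have h3 : ∀ ψ ∈ (univ : Finset (DirichletCharacter ℂ f)).filter (fun χ => χ.IsPrimitive),
        (if a < ψ.conductor ∧ ψ.conductor ≤ b then ‖PS N f ψ‖ ^ k else 0) =
          (if a < f ∧ f ≤ b then ‖PS N f ψ‖ ^ k else 0) := by
      intro ψ hψ
      rw [mem_filter] at hψ
      have h4 : ψ.conductor = f := hψ.2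
      rw [h4]
    rw [sum_congr rfl h3]
    split_ifs
    · rfl
    · simp
  rw [h2] at h1
  refine le_trans ?_ h1
  have h6 : blk S a b ⊆ (univ : Finset (DirichletCharacter ℂ d)).filter (fun χ => χ ≠ 1) := by
    intro χ hχ
    rw [mem_blk] at hχ
    rw [mem_filter]
    exact ⟨mem_univ _, hχ.2.1⟩
  calc ∑ χ ∈ blk S a b, gg N d χ ^ k
      = ∑ χ ∈ blk S a b, (if a < χ.conductor ∧ χ.conductor ≤ b then gg N d χ ^ k else 0) := by
        apply sum_congr rfl
        intro χ hχ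
        rw [mem_blk] at hχ
        rw [if_pos hχ.2.2]
    _ ≤ _ := by
        apply sum_le_sum_of_subset_of_nonneg h6
        intro χ _ _
        split_ifs
        · exact pow_nonneg (gg_nonneg _ _ _) _
        · exact le_rfl

/-- the `2r`-th moment of one block -/
lemma moment_blk (N Q F r : ℕ) (hF : 1 ≤ F)
    (S : (q : ℕ) → Finset (DirichletCharacter ℂ q)) :
    ∑ q ∈ Icc 1 Q, (1 / (q : ℝ)) * ∑ χ ∈ blk (S q) F (2 * F), gg N q χ ^ (2 * r) ≤
      (1 + Real.log Q) * ((1 / (F : ℝ)) *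
        (6 * ((N : ℝ) ^ r + 4 * (F : ℝ) ^ 2) * ((r : ℝ) ^ r * (N : ℝ) ^ r))) := by
  have hF0 : (0 : ℝ) < F := by exact_mod_cast hF
  have hlQ : 0 ≤ Real.log Q := Real.log_natCast_nonneg Q
  set G : ℕ → ℝ := fun f => if F < f ∧ f ≤ 2 * F then ∑ ψ ∈ Prim f, ‖PS N f ψ‖ ^ (2 * r) else 0
    with hG
  have hGn : ∀ f, 0 ≤ G f := by
    intro f
    simp only [hG]
    split_ifs
    · exact sum_nonneg fun _ _ => by positivity
    · exact le_rfl
  have h1 : ∑ q ∈ Icc 1 Q, (1 / (q : ℝ)) * ∑ χ ∈ blk (S q) F (2 * F), gg N q χ ^ (2 * r) ≤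
      ∑ q ∈ Icc 1 Q, (1 / (q : ℝ)) * ∑ f ∈ q.divisors.filter (fun f => f ≠ 1), G f := by
    apply sum_le_sum
    intro q hq
    rw [mem_Icc] at hq
    apply mul_le_mul_of_nonneg_left _ (by positivity)
    exact cond_range N q F (2 * F) (2 * r) hq.1 (S q)
  refine h1.trans ((swap1 Q G hGn).trans ?_)
  apply mul_le_mul_of_nonneg_left _ (by linarith)
  have h2 : ∀ f ∈ Icc 2 Q, (1 / (f : ℝ)) * G f ≤ (1 / (F : ℝ)) *
      (if F < f ∧ f ≤ 2 * F then ∑ ψ ∈ Prim f, ‖PS N f ψ‖ ^ (2 * r) else 0) := by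
    intro f _
    simp only [hG]
    split_ifs with h
    · apply mul_le_mul_of_nonneg_right _ (sum_nonneg fun _ _ => by positivity)
      apply one_div_le_one_div_of_le hF0
      exact_mod_cast h.1.le
    · simp
  refine (sum_le_sum h2).trans ?_
  rw [← mul_sum]
  apply mul_le_mul_of_nonneg_left _ (by positivity)
  rw [← sum_filter]
  have h3 := ls_pow r N (2 * F)
  have h4 : ∑ f ∈ (Icc 2 Q).filter (fun f => F < f ∧ f ≤ 2 * F),
      ∑ ψ ∈ Prim f, ‖PS N f ψ‖ ^ (2 * r) ≤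
      ∑ f ∈ Icc 1 (2 * F), ∑ ψ ∈ Prim f, ‖PS N f ψ‖ ^ (2 * r) := by
    apply sum_le_sum_of_subset_of_nonneg
    · intro f hf
      rw [mem_filter, mem_Icc] at hf
      rw [mem_Icc]
      omega
    · intro f _ _
      exact sum_nonneg fun _ _ => by positivity
  refine h4.trans (h3.trans (le_of_eq ?_))
  push_cast
  ring

/-- the total weight of one block -/
lemma weight_blk (N Q F : ℕ) (hF : 1 ≤ F) (ε : ℝ)
    (S : (q : ℕ) → Finset (DirichletCharacter ℂ q))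
    (hS : ∀ q ∈ Icc 1 Q, ((S q).card : ℝ) ≤
      (N : ℝ) ^ (-ε) * max ((N : ℝ) ^ (1 / 4 : ℝ)) ((N : ℝ) / q)) :
    ∑ q ∈ Icc 1 Q, (1 / (q : ℝ)) * ((blk (S q) F (2 * F)).card : ℝ) ≤
      (N : ℝ) ^ (-ε) * ((N : ℝ) ^ (1 / 4 : ℝ) * (1 + Real.log Q) + N / F) := by
  have hF0 : (0 : ℝ) < F := by exact_mod_cast hF
  have hN0 : (0 : ℝ) ≤ N := Nat.cast_nonneg N
  have hNe : 0 ≤ (N : ℝ) ^ (-ε) := Real.rpow_nonneg hN0 _
  have hN4 : 0 ≤ (N : ℝ) ^ (1 / 4 : ℝ) := Real.rpow_nonneg hN0 _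
  have h1 : ∀ q ∈ Icc 1 Q, (1 / (q : ℝ)) * ((blk (S q) F (2 * F)).card : ℝ) ≤
      (N : ℝ) ^ (-ε) * ((N : ℝ) ^ (1 / 4 : ℝ) * (1 / (q : ℝ)) +
        (if F < q then N * (1 / (q : ℝ) ^ 2) else 0)) := by
    intro q hq
    have hq' := hq
    rw [mem_Icc] at hq
    have hq0 : (0 : ℝ) < q := by exact_mod_cast hq.1
    by_cases hFq : F < q
    · rw [if_pos hFq]
      have h2 : ((blk (S q) F (2 * F)).card : ℝ) ≤ ((S q).card : ℝ) := by
        unfold blk
        exact_mod_cast card_filter_le _ _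
      have h3 := hS q hq'
      have h4 : max ((N : ℝ) ^ (1 / 4 : ℝ)) ((N : ℝ) / q) ≤ (N : ℝ) ^ (1 / 4 : ℝ) + N / q := by
        apply max_le
        · have : 0 ≤ (N : ℝ) / q := by positivity
          linarith
        · linarith
      calc (1 / (q : ℝ)) * ((blk (S q) F (2 * F)).card : ℝ) ≤
          (1 / (q : ℝ)) * ((N : ℝ) ^ (-ε) * ((N : ℝ) ^ (1 / 4 : ℝ) + N / q)) := by
            apply mul_le_mul_of_nonneg_left _ (by positivity)
            refine h2.trans (h3.trans ?_)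
            exact mul_le_mul_of_nonneg_left h4 hNe
        _ = _ := by
            field_simp
    · rw [if_neg hFq]
      have h5 : blk (S q) F (2 * F) = ∅ := by
        rw [Finset.eq_empty_iff_forall_notMem]
        intro χ hχ
        rw [mem_blk] at hχ
        have h6 : χ.conductor ≤ q := Nat.le_of_dvd (by omega) χ.conductor_dvd_level
        omega
      rw [h5]
      simp only [card_empty, Nat.cast_zero, mul_zero, add_zero]
      positivity
  refine (sum_le_sum h1).trans ?_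
  rw [← mul_sum]
  apply mul_le_mul_of_nonneg_left _ hNe
  rw [sum_add_distrib, ← mul_sum]
  apply add_le_add
  · apply mul_le_mul_of_nonneg_left _ hN4
    have h2 := sum_mult Q 1 le_rfl
    simp only [one_dvd, filter_true, Nat.cast_one, div_one, one_mul] at h2
    exact h2
  · rw [← sum_filter, ← mul_sum]
    have h3 : ∑ q ∈ (Icc 1 Q).filter (fun q => F < q), (1 / (q : ℝ) ^ 2) ≤ 1 / (F : ℝ) := by
      have h4 : (Icc 1 Q).filter (fun q => F < q) ⊆ Ioc F (max F Q) := by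
        intro q hq
        rw [mem_filter, mem_Icc] at hq
        rw [mem_Ioc]
        exact ⟨hq.2, hq.1.2.trans (le_max_right _ _)⟩
      refine (sum_le_sum_of_subset_of_nonneg h4 fun _ _ _ => by positivity).trans ?_
      have h5 := sum_Ioc_inv_sq_le_sub (α := ℝ) (k := F) (n := max F Q) (by omega) (le_max_left _ _)
      have h6 : ∑ q ∈ Ioc F (max F Q), (1 / (q : ℝ) ^ 2) = ∑ i ∈ Ioc F (max F Q), (((i : ℝ)) ^ 2)⁻¹ := by
        apply sum_congr rfl
        intro q _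
        rw [one_div]
      rw [h6]
      refine h5.trans ?_
      rw [one_div]
      have : 0 ≤ (((max F Q : ℕ) : ℝ))⁻¹ := by positivity
      linarith
    calc (N : ℝ) * ∑ q ∈ (Icc 1 Q).filter (fun q => F < q), (1 / (q : ℝ) ^ 2)
        ≤ N * (1 / (F : ℝ)) := mul_le_mul_of_nonneg_left h3 hN0
      _ = N / F := by ring

/-- Hölder's inequality for one block -/
lemma holder_blk (N Q F r : ℕ) (hr : 1 ≤ r) (S : (q : ℕ) → Finset (DirichletCharacter ℂ q)) :
    ∑ q ∈ Icc 1 Q, (1 / (q : ℝ)) * ∑ χ ∈ blk (S q) F (2 * F), gg N q χ ≤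
      (∑ q ∈ Icc 1 Q, (1 / (q : ℝ)) * ((blk (S q) F (2 * F)).card : ℝ)) ^
        (1 - ((2 * r : ℕ) : ℝ)⁻¹) *
      (∑ q ∈ Icc 1 Q, (1 / (q : ℝ)) * ∑ χ ∈ blk (S q) F (2 * F), gg N q χ ^ (2 * r)) ^
        ((2 * r : ℕ) : ℝ)⁻¹ := by
  have hr2 : (1 : ℝ) ≤ ((2 * r : ℕ) : ℝ) := by
    have : 1 ≤ 2 * r := by omega
    exact_mod_cast this
  have h1 := Real.inner_le_weight_mul_Lp_of_nonneg
    ((Icc 1 Q).sigma (fun q => blk (S q) F (2 * F))) hr2
    (fun x : (q : ℕ) × DirichletCharacter ℂ q => (1 / (x.1 : ℝ)))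
    (fun x : (q : ℕ) × DirichletCharacter ℂ q => gg N x.1 x.2)
    (fun x => by positivity) (fun x => gg_nonneg _ _ _)
  rw [sum_sigma, sum_sigma, sum_sigma] at h1
  have e1 : ∑ q ∈ Icc 1 Q, ∑ χ ∈ blk (S q) F (2 * F), (1 / (q : ℝ)) * gg N q χ =
      ∑ q ∈ Icc 1 Q, (1 / (q : ℝ)) * ∑ χ ∈ blk (S q) F (2 * F), gg N q χ := by
    apply sum_congr rfl
    intro q _
    rw [mul_sum]
  have e2 : ∑ q ∈ Icc 1 Q, ∑ _χ ∈ blk (S q) F (2 * F), (1 / (q : ℝ)) =
      ∑ q ∈ Icc 1 Q, (1 / (q : ℝ)) * ((blk (S q) F (2 * F)).card : ℝ) := by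
    apply sum_congr rfl
    intro q _
    rw [sum_const, nsmul_eq_mul, mul_comm]
  have e3 : ∑ q ∈ Icc 1 Q, ∑ χ ∈ blk (S q) F (2 * F),
        (1 / (q : ℝ)) * gg N q χ ^ (((2 * r : ℕ) : ℝ)) =
      ∑ q ∈ Icc 1 Q, (1 / (q : ℝ)) * ∑ χ ∈ blk (S q) F (2 * F), gg N q χ ^ (2 * r) := by
    apply sum_congr rfl
    intro q _
    rw [mul_sum]
    apply sum_congr rfl
    intro χ _
    rw [Real.rpow_natCast]
  simp only at h1
  rw [e1, e2, e3] at h1
  exact h1

end Pool.Agent.N766.CS
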