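import Pool.Agent.N766.CS.Fix
import Pool.Agent.TH926.EH.Lg

/-!
Sparse sets of characters: the theorem.
-/

set_option autoImplicit false

open Finset Filter

namespace Pool.Agent.N766.CS

open Pool.Agent.H398R2.BV (Prim)
open Pool.Agent.Helper112
open Pool.Agent.H441R3.BV (PS PS_change nlog_le omega_log)
open Pool.Agent.TH926.EH (low_cond log_pow_le log_ge_one)
open Classical

/-- the small conductors -/
lemma low_part (ε : ℝ) (hε : 0 < ε) (U : ℕ) : ∃ C : ℝ, 0 ≤ C ∧ ∃ x0 : ℕ, 3 ≤ x0 ∧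
    ∀ N : ℕ, x0 ≤ N → ∀ Q R0 : ℕ, (R0 : ℝ) ≤ (N : ℝ) ^ (1 / 2 - ε / 4) →
    ∀ S : (q : ℕ) → Finset (DirichletCharacter ℂ q),
    ∑ q ∈ Icc 1 Q, (1 / (q : ℝ)) * ∑ χ ∈ blk (S q) 0 R0, gg N q χ ≤
      C * (1 + Real.log Q) * (N / Real.log N ^ U) := by
  obtain ⟨C, hC, x0, hx0, h⟩ := low_cond U (ε / 4) (by linarith)
  refine ⟨C, hC, max x0 3, le_max_right _ _, ?_⟩
  intro N hN Q R0 hR0 S
  have hN3 : 3 ≤ N := (le_max_right _ _).trans hN
  have hlQ : 0 ≤ Real.log Q := Real.log_natCast_nonneg Q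
  set G : ℕ → ℝ := fun f => if 0 < f ∧ f ≤ R0 then ∑ ψ ∈ Prim f, ‖PS N f ψ‖ ^ 1 else 0 with hG
  have hGn : ∀ f, 0 ≤ G f := by
    intro f
    simp only [hG]
    split_ifs
    · exact sum_nonneg fun _ _ => by positivity
    · exact le_rfl
  have h1 : ∑ q ∈ Icc 1 Q, (1 / (q : ℝ)) * ∑ χ ∈ blk (S q) 0 R0, gg N q χ ≤
      ∑ q ∈ Icc 1 Q, (1 / (q : ℝ)) * ∑ f ∈ q.divisors.filter (fun f => f ≠ 1), G f := by
    apply sum_le_sum
    intro q hq
    rw [mem_Icc] at hq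
    apply mul_le_mul_of_nonneg_left _ (by positivity)
    have h2 := cond_range N q 0 R0 1 hq.1 (S q)
    refine le_trans (le_of_eq ?_) h2
    apply sum_congr rfl
    intro χ _
    rw [pow_one]
  refine h1.trans ((swap1 Q G hGn).trans ?_)
  have h2 : ∑ f ∈ Icc 2 Q, (1 / (f : ℝ)) * G f ≤
      ∑ f ∈ Icc 2 R0, (1 / (Nat.totient f : ℝ)) * ∑ ψ ∈ Prim f, ‖PS N f ψ‖ := by
    have h3 : ∀ f ∈ Icc 2 Q, (1 / (f : ℝ)) * G f ≤
        (if f ≤ R0 then (1 / (Nat.totient f : ℝ)) * ∑ ψ ∈ Prim f, ‖PS N f ψ‖ else 0) := by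
      intro f hf
      rw [mem_Icc] at hf
      have hφ : (0 : ℝ) < Nat.totient f := by exact_mod_cast Nat.totient_pos.mpr (by omega)
      have hφ2 : (Nat.totient f : ℝ) ≤ f := by exact_mod_cast Nat.totient_le f
      simp only [hG]
      by_cases hfR : f ≤ R0
      · rw [if_pos ⟨by omega, hfR⟩, if_pos hfR]
        simp only [pow_one]
        apply mul_le_mul_of_nonneg_right _ (sum_nonneg fun _ _ => norm_nonneg _)
        exact one_div_le_one_div_of_le hφ hφ2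
      · rw [if_neg (by tauto), if_neg hfR, mul_zero]
    refine (sum_le_sum h3).trans ?_
    rw [← sum_filter]
    apply sum_le_sum_of_subset_of_nonneg
    · intro f hf
      rw [mem_filter, mem_Icc] at hf
      rw [mem_Icc]
      omega
    · intro f _ _
      exact mul_nonneg (by positivity) (sum_nonneg fun _ _ => norm_nonneg _)
  have h4 := h N ((le_max_left _ _).trans hN) R0 hR0
  calc (1 + Real.log Q) * ∑ f ∈ Icc 2 Q, (1 / (f : ℝ)) * G f
      ≤ (1 + Real.log Q) * (C * (N / Real.log N ^ U)) := by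
        apply mul_le_mul_of_nonneg_left (h2.trans h4) (by linarith)
    _ = _ := by ring

/-- powers of the logarithm are small -/
lemma absorb (k U : ℕ) (δ : ℝ) (hδ : 0 < δ) : ∃ C : ℝ, 0 < C ∧ ∀ N : ℕ, 3 ≤ N →
    (1 + Real.log N) ^ k * (N : ℝ) ^ (1 - δ) ≤ C * (N / Real.log N ^ U) := by
  obtain ⟨C, hC, h⟩ := log_pow_le (k + U) δ hδ
  refine ⟨C, hC, fun N hN => ?_⟩
  have hl := log_ge_one hN
  have hN0 : (0 : ℝ) < N := by exact_mod_cast (by omega : 0 < N)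
  have h1 := h N (by omega)
  rw [← mul_div_assoc, le_div_iff₀ (by positivity)]
  calc (1 + Real.log N) ^ k * (N : ℝ) ^ (1 - δ) * Real.log N ^ U
      ≤ (1 + Real.log N) ^ k * (N : ℝ) ^ (1 - δ) * (1 + Real.log N) ^ U := by
        gcongr
        linarith
    _ = (1 + Real.log N) ^ (k + U) * (N : ℝ) ^ (1 - δ) := by rw [pow_add]; ring
    _ ≤ (C * (N : ℝ) ^ δ) * (N : ℝ) ^ (1 - δ) := by gcongr
    _ = C * ((N : ℝ) ^ δ * (N : ℝ) ^ (1 - δ)) := by ring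
    _ = C * N := by
        rw [← Real.rpow_add hN0]
        have : δ + (1 - δ) = 1 := by ring
        rw [this, Real.rpow_one]

lemma sum_inv_le (Q : ℕ) : ∑ q ∈ Icc 1 Q, (1 / (q : ℝ)) ≤ 1 + Real.log Q := by
  have h2 := sum_mult Q 1 le_rfl
  simp only [one_dvd, filter_true, Nat.cast_one, div_one, one_mul] at h2
  exact h2

/-- for `ε ≤ 1` and large `N` -/
lemma chars_large (θ ε : ℝ) (hθ : 0 < θ) (hε : 0 < ε) (hε1 : ε ≤ 1) (U : ℕ) : ∃ C : ℝ, 0 < C ∧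
    ∃ x0 : ℕ, 3 ≤ x0 ∧ ∀ N : ℕ, x0 ≤ N → ∀ Q : ℕ, (Q : ℝ) ≤ (N : ℝ) ^ θ →
    ∀ S : (q : ℕ) → Finset (DirichletCharacter ℂ q),
    (∀ q ∈ Icc 1 Q, (∀ χ ∈ S q, χ ≠ 1) ∧ ((S q).card : ℝ) ≤
      (N : ℝ) ^ (-ε) * max ((N : ℝ) ^ (1 / 4 : ℝ)) ((N : ℝ) / q)) →
    ∑ q ∈ Icc 1 Q, (1 / (q : ℝ)) * ∑ χ ∈ S q, ‖PS N q χ‖ ≤ C * (N / Real.log N ^ U) := by
  obtain ⟨C1, hC1, x1, hx1, hlow⟩ := low_part ε hε (U + 1)
  obtain ⟨C2, hC2, hhigh⟩ := high_part θ ε hε
  obtain ⟨C3, hC3, habs⟩ := absorb 2 U (ε / 4) (by linarith)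
  refine ⟨(2 + 2 * θ) * C1 + (C2 + 2) * (1 + θ) ^ 2 * C3, by positivity, x1, hx1, ?_⟩
  intro N hN Q hQ S hS
  have hN3 : 3 ≤ N := hx1.trans hN
  have hN0 : (0 : ℝ) < N := by exact_mod_cast (by omega : 0 < N)
  have hN1 : (1 : ℝ) ≤ N := by exact_mod_cast (by omega : 1 ≤ N)
  have hl := log_ge_one hN3
  have hlQ : 0 ≤ Real.log Q := Real.log_natCast_nonneg Q
  have hS2 : ∀ q ∈ Icc 1 Q, ((S q).card : ℝ) ≤
      (N : ℝ) ^ (-ε) * max ((N : ℝ) ^ (1 / 4 : ℝ)) ((N : ℝ) / q) := fun q hq => (hS q hq).2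
  rcases Nat.eq_zero_or_pos Q with h0 | hQ1
  · subst h0
    simp only [show Icc 1 0 = (∅ : Finset ℕ) from rfl, sum_empty]
    positivity
  have hQ0 : (0 : ℝ) < Q := by exact_mod_cast hQ1
  have hlQN : Real.log Q ≤ θ * Real.log N := by
    rw [← Real.log_rpow hN0]
    exact Real.log_le_log hQ0 hQ
  have hA : 1 + Real.log Q ≤ (1 + θ) * (1 + Real.log N) := by nlinarith
  have hA0 : 0 ≤ 1 + Real.log Q := by linarith
  -- the cut
  have hc1 : (1 : ℝ) ≤ (N : ℝ) ^ (1 / 2 - ε / 4) := Real.one_le_rpow hN1 (by linarith)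
  set R : ℕ := ⌊(N : ℝ) ^ (1 / 2 - ε / 4)⌋₊ with hR
  have hR1 : 1 ≤ R := by
    rw [hR, Nat.one_le_floor_iff]; exact hc1
  set i0 := Nat.log 2 R with hi0
  have hp1 : 2 ^ i0 ≤ R := Nat.pow_log_le_self 2 (by omega)
  have hp2 : R < 2 ^ (i0 + 1) := Nat.lt_pow_succ_log_self (by norm_num) R
  have hRr : (R : ℝ) ≤ (N : ℝ) ^ (1 / 2 - ε / 4) := Nat.floor_le (by positivity)
  have hcut1 : ((2 ^ i0 : ℕ) : ℝ) ≤ (N : ℝ) ^ (1 / 2 - ε / 4) := by
    have : ((2 ^ i0 : ℕ) : ℝ) ≤ R := by exact_mod_cast hp1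
    linarith
  have hcut2 : (N : ℝ) ^ (1 / 2 - ε / 4) ≤ 4 * ((2 ^ i0 : ℕ) : ℝ) := by
    have h1 : (N : ℝ) ^ (1 / 2 - ε / 4) < R + 1 := Nat.lt_floor_add_one _
    have h2 : ((R : ℝ) + 1) ≤ ((2 ^ (i0 + 1) : ℕ) : ℝ) := by exact_mod_cast hp2
    have h3 : ((2 ^ (i0 + 1) : ℕ) : ℝ) = 2 * ((2 ^ i0 : ℕ) : ℝ) := by
      push_cast; rw [pow_succ]; ring
    have h4 : (0 : ℝ) < ((2 ^ i0 : ℕ) : ℝ) := by positivity
    linarith
  have t1 := hlow N hN Q (2 ^ i0) hcut1 S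
  have t2 := hhigh N hN3 Q i0 hQ hcut2 S hS2
  -- splitting
  have hsplit : ∀ q ∈ Icc 1 Q, (1 / (q : ℝ)) * ∑ χ ∈ S q, ‖PS N q χ‖ ≤
      (1 / (q : ℝ)) * ∑ χ ∈ blk (S q) 0 (2 ^ i0), gg N q χ +
      (1 / (q : ℝ)) * ∑ χ ∈ blk (S q) (2 ^ i0) Q, gg N q χ +
      (1 / (q : ℝ)) * (((S q).card : ℝ) * (q.primeFactors.card : ℝ)) := by
    intro q hq
    have hq' := hq
    rw [mem_Icc] at hq
    rw [← mul_add, ← mul_add]
    apply mul_le_mul_of_nonneg_left _ (by positivity)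
    have e1 : ∑ χ ∈ S q, ‖PS N q χ‖ ≤ ∑ χ ∈ S q, gg N q χ +
        ((S q).card : ℝ) * (q.primeFactors.card : ℝ) := by
      refine (sum_le_sum fun χ _ => PS_le_gg N q χ).trans ?_
      rw [sum_add_distrib, sum_const, nsmul_eq_mul]
    have e2 : ∑ χ ∈ S q, gg N q χ ≤ ∑ χ ∈ blk (S q) 0 (2 ^ i0), gg N q χ +
        ∑ χ ∈ blk (S q) (2 ^ i0) Q, gg N q χ := by
      have e3 : S q ⊆ blk (S q) 0 (2 ^ i0) ∪ blk (S q) (2 ^ i0) Q := by
        intro χ hχ
        rw [mem_union, mem_blk, mem_blk]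
        have h1 := (hS q hq').1 χ hχ
        have h2 : χ.conductor ≤ q := Nat.le_of_dvd (by omega) χ.conductor_dvd_level
        have h3 : 0 < χ.conductor := Nat.pos_of_ne_zero (fun h => by
          have := χ.conductor_dvd_level
          rw [h, zero_dvd_iff] at this
          omega)
        rcases le_or_gt χ.conductor (2 ^ i0) with h4 | h4
        · left; exact ⟨hχ, h1, h3, h4⟩
        · right; exact ⟨hχ, h1, h4, h2.trans hq.2⟩
      refine (sum_le_sum_of_subset_of_nonneg e3 fun _ _ _ => gg_nonneg _ _ _).trans ?_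
      rw [← sum_union_inter]
      have : 0 ≤ ∑ χ ∈ blk (S q) 0 (2 ^ i0) ∩ blk (S q) (2 ^ i0) Q, gg N q χ :=
        sum_nonneg fun _ _ => gg_nonneg _ _ _
      linarith
    linarith
  have hcorr : ∑ q ∈ Icc 1 Q, (1 / (q : ℝ)) * (((S q).card : ℝ) * (q.primeFactors.card : ℝ)) ≤
      2 * (1 + Real.log Q) ^ 2 * (N : ℝ) ^ (1 - ε / 4) := by
    have h1 : ∀ q ∈ Icc 1 Q, (1 / (q : ℝ)) * (((S q).card : ℝ) * (q.primeFactors.card : ℝ)) ≤
        (1 / (q : ℝ)) * ((N : ℝ) ^ (1 - ε / 4) * (2 * Real.log Q)) := by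
      intro q hq
      have h2 := hS2 q hq
      rw [mem_Icc] at hq
      have hq1 : (1 : ℝ) ≤ q := by exact_mod_cast hq.1
      have h3 : max ((N : ℝ) ^ (1 / 4 : ℝ)) ((N : ℝ) / q) ≤ N := by
        apply max_le
        · calc (N : ℝ) ^ (1 / 4 : ℝ) ≤ (N : ℝ) ^ (1 : ℝ) :=
              Real.rpow_le_rpow_of_exponent_le hN1 (by norm_num)
            _ = N := Real.rpow_one _
        · exact div_le_self hN0.le hq1
      have h4 : ((S q).card : ℝ) ≤ (N : ℝ) ^ (1 - ε / 4) := by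
        calc ((S q).card : ℝ) ≤ (N : ℝ) ^ (-ε) * N := by
              refine h2.trans ?_
              exact mul_le_mul_of_nonneg_left h3 (Real.rpow_nonneg hN0.le _)
          _ = (N : ℝ) ^ (1 - ε) := by
              nth_rewrite 2 [← Real.rpow_one (N : ℝ)]
              rw [← Real.rpow_add hN0]
              congr 1
              ring
          _ ≤ _ := by
              apply Real.rpow_le_rpow_of_exponent_le hN1
              linarith
      have h5 : (q.primeFactors.card : ℝ) ≤ 2 * Real.log Q := by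
        refine (omega_log q hq.1).trans ?_
        have : Real.log q ≤ Real.log Q := Real.log_le_log (by linarith) (by exact_mod_cast hq.2)
        linarith
      gcongr
    refine (sum_le_sum h1).trans ?_
    rw [← sum_mul]
    have h6 := sum_inv_le Q
    calc (∑ q ∈ Icc 1 Q, (1 / (q : ℝ))) * ((N : ℝ) ^ (1 - ε / 4) * (2 * Real.log Q))
        ≤ (1 + Real.log Q) * ((N : ℝ) ^ (1 - ε / 4) * (2 * (1 + Real.log Q))) := by
          gcongr
          linarith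
      _ = _ := by ring
  have htot : ∑ q ∈ Icc 1 Q, (1 / (q : ℝ)) * ∑ χ ∈ S q, ‖PS N q χ‖ ≤
      C1 * (1 + Real.log Q) * (N / Real.log N ^ (U + 1)) +
      (C2 + 2) * (1 + Real.log Q) ^ 2 * (N : ℝ) ^ (1 - ε / 4) := by
    refine (sum_le_sum hsplit).trans ?_
    rw [sum_add_distrib, sum_add_distrib]
    linarith
  refine htot.trans ?_
  have s1 : C1 * (1 + Real.log Q) * (N / Real.log N ^ (U + 1)) ≤
      (2 + 2 * θ) * C1 * (N / Real.log N ^ U) := by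
    have h1 : (1 + Real.log Q) ≤ (2 + 2 * θ) * Real.log N := by
      refine hA.trans ?_
      nlinarith
    calc C1 * (1 + Real.log Q) * (N / Real.log N ^ (U + 1))
        ≤ C1 * ((2 + 2 * θ) * Real.log N) * (N / Real.log N ^ (U + 1)) := by gcongr
      _ = _ := by
          rw [pow_succ]
          field_simp
  have s2 : (C2 + 2) * (1 + Real.log Q) ^ 2 * (N : ℝ) ^ (1 - ε / 4) ≤
      (C2 + 2) * (1 + θ) ^ 2 * C3 * (N / Real.log N ^ U) := by
    calc (C2 + 2) * (1 + Real.log Q) ^ 2 * (N : ℝ) ^ (1 - ε / 4)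
        ≤ (C2 + 2) * ((1 + θ) * (1 + Real.log N)) ^ 2 * (N : ℝ) ^ (1 - ε / 4) := by gcongr
      _ = (C2 + 2) * (1 + θ) ^ 2 * ((1 + Real.log N) ^ 2 * (N : ℝ) ^ (1 - ε / 4)) := by ring
      _ ≤ (C2 + 2) * (1 + θ) ^ 2 * (C3 * (N / Real.log N ^ U)) := by
          apply mul_le_mul_of_nonneg_left (habs N hN3) (by positivity)
      _ = _ := by ring
  linarith

/-- **sparse sets of characters** -/
theorem chars (θ ε : ℝ) (hθ : 0 < θ) (hε : 0 < ε) (U : ℕ) : ∃ C : ℝ, 0 < C ∧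
    ∀ N : ℕ, 3 ≤ N → ∀ Q : ℕ, (Q : ℝ) ≤ (N : ℝ) ^ θ →
    ∀ S : (q : ℕ) → Finset (DirichletCharacter ℂ q),
    (∀ q ∈ Icc 1 Q, (∀ χ ∈ S q, χ ≠ 1) ∧ ((S q).card : ℝ) ≤
      (N : ℝ) ^ (-ε) * max ((N : ℝ) ^ (1 / 4 : ℝ)) ((N : ℝ) / q)) →
    ∑ q ∈ Icc 1 Q, (1 / (q : ℝ)) * ∑ χ ∈ S q, ‖PS N q χ‖ ≤ C * (N / Real.log N ^ U) := by
  obtain ⟨C, hC, x0, hx0, h⟩ := chars_large θ (min ε 1) hθ (lt_min hε one_pos) (min_le_right _ _) U
  have hx0r : (3 : ℝ) ≤ x0 := by exact_mod_cast hx0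
  have hlx := log_ge_one hx0
  refine ⟨C + (x0 : ℝ) * (1 + θ * Real.log x0) * Real.log x0 ^ U, by positivity, ?_⟩
  intro N hN Q hQ S hS
  have hN0 : (0 : ℝ) < N := by exact_mod_cast (by omega : 0 < N)
  have hN1 : (1 : ℝ) ≤ N := by exact_mod_cast (by omega : 1 ≤ N)
  have hl := log_ge_one hN
  have hNU : 0 < (N : ℝ) / Real.log N ^ U := by positivity
  rcases le_or_gt x0 N with hxN | hxN
  · have h1 := h N hxN Q hQ S (fun q hq => ⟨(hS q hq).1, (hS q hq).2.trans (by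
      apply mul_le_mul_of_nonneg_right _ (by positivity)
      apply Real.rpow_le_rpow_of_exponent_le hN1
      have := min_le_left ε 1
      linarith)⟩)
    refine h1.trans ?_
    apply mul_le_mul_of_nonneg_right _ hNU.le
    have : 0 ≤ (x0 : ℝ) * (1 + θ * Real.log x0) * Real.log x0 ^ U := by positivity
    linarith
  · rcases Nat.eq_zero_or_pos Q with h0 | hQ1
    · subst h0
      simp only [show Icc 1 0 = (∅ : Finset ℕ) from rfl, sum_empty]
      positivity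
    have hQ0 : (0 : ℝ) < Q := by exact_mod_cast hQ1
    have hNx : (N : ℝ) ≤ x0 := by exact_mod_cast hxN.le
    have hlNx : Real.log N ≤ Real.log x0 := Real.log_le_log hN0 hNx
    have hlQN : Real.log Q ≤ θ * Real.log N := by
      rw [← Real.log_rpow hN0]
      exact Real.log_le_log hQ0 hQ
    have h1 : ∀ q ∈ Icc 1 Q, (1 / (q : ℝ)) * ∑ χ ∈ S q, ‖PS N q χ‖ ≤ (1 / (q : ℝ)) * (N * N) := by
      intro q hq
      have h2 := (hS q hq).2
      rw [mem_Icc] at hq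
      have hq1 : (1 : ℝ) ≤ q := by exact_mod_cast hq.1
      apply mul_le_mul_of_nonneg_left _ (by positivity)
      have h3 : ((S q).card : ℝ) ≤ N := by
        have h4 : max ((N : ℝ) ^ (1 / 4 : ℝ)) ((N : ℝ) / q) ≤ N := by
          apply max_le
          · calc (N : ℝ) ^ (1 / 4 : ℝ) ≤ (N : ℝ) ^ (1 : ℝ) :=
                Real.rpow_le_rpow_of_exponent_le hN1 (by norm_num)
              _ = N := Real.rpow_one _
          · exact div_le_self hN0.le hq1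
        have h5 : (N : ℝ) ^ (-ε) ≤ 1 := Real.rpow_le_one_of_one_le_of_nonpos hN1 (by linarith)
        have h6 : 0 ≤ (N : ℝ) ^ (-ε) := Real.rpow_nonneg hN0.le _
        calc ((S q).card : ℝ) ≤ (N : ℝ) ^ (-ε) * max ((N : ℝ) ^ (1 / 4 : ℝ)) ((N : ℝ) / q) := h2
          _ ≤ 1 * N := by gcongr
          _ = N := one_mul _
      have h5 : ∀ χ ∈ S q, ‖PS N q χ‖ ≤ N := by
        intro χ _
        rw [PS_eq]
        refine (norm_sum_le _ _).trans ?_
        refine (sum_le_card_nsmul _ _ 1 fun p _ => χ.norm_le_one _).trans ?_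
        rw [nsmul_eq_mul, mul_one]
        exact_mod_cast card_P_le N
      refine (sum_le_card_nsmul _ _ _ h5).trans ?_
      rw [nsmul_eq_mul]
      exact mul_le_mul_of_nonneg_right h3 hN0.le
    refine (sum_le_sum h1).trans ?_
    rw [← sum_mul]
    have h6 := sum_inv_le Q
    have h7 : 1 + Real.log Q ≤ 1 + θ * Real.log x0 := by nlinarith
    have h8 : Real.log N ^ U ≤ Real.log x0 ^ U := pow_le_pow_left₀ (by linarith) hlNx U
    have h9 : (N : ℝ) * (1 + θ * Real.log x0) * N ≤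
        (x0 : ℝ) * (1 + θ * Real.log x0) * Real.log x0 ^ U * (N / Real.log N ^ U) := by
      rw [← mul_div_assoc, le_div_iff₀ (by positivity)]
      have h10 : 0 ≤ 1 + θ * Real.log x0 := by positivity
      calc (N : ℝ) * (1 + θ * Real.log x0) * N * Real.log N ^ U
          ≤ (x0 : ℝ) * (1 + θ * Real.log x0) * N * Real.log x0 ^ U := by gcongr
        _ = _ := by ring
    have h11 : 0 ≤ C * ((N : ℝ) / Real.log N ^ U) := by positivity
    calc (∑ q ∈ Icc 1 Q, (1 / (q : ℝ))) * ((N : ℝ) * N)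
        ≤ (1 + θ * Real.log x0) * ((N : ℝ) * N) := by
          apply mul_le_mul_of_nonneg_right (h6.trans h7) (by positivity)
      _ = (N : ℝ) * (1 + θ * Real.log x0) * N := by ring
      _ ≤ _ := h9
      _ ≤ _ := by nlinarith

end Pool.Agent.N766.CS
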