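import Pool.Agent.N766.CS.Dual

/-!
Primes in the cosets of subgroups, on average over the moduli.
-/

set_option autoImplicit false

open Finset

namespace Pool.Agent.N766.CS

open Pool.Agent.H441R3.BV (PS omega_log)
open Pool.Agent.TH926.EH (log_pow_le log_ge_one)
open Classical

/-- the discrepancy -/
noncomputable def D (N q : ℕ) (H : Subgroup (ZMod q)ˣ) (a : (ZMod q)ˣ) : ℝ :=
  |(H.index : ℝ) * (cnt N q H a : ℝ) - pi' N|

lemma D_nonneg (N q : ℕ) (H : Subgroup (ZMod q)ˣ) (a : (ZMod q)ˣ) : 0 ≤ D N q H a := abs_nonneg _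

/-- the bound for the index -/
noncomputable def lim (ε : ℝ) (N q : ℕ) : ℝ :=
  (N : ℝ) ^ (-ε) * max ((N : ℝ) ^ (1 / 4 : ℝ)) ((N : ℝ) / q)

/-- the characters -/
noncomputable def Sd (N : ℕ) (ε : ℝ) (H : (q : ℕ) → Subgroup (ZMod q)ˣ) (q : ℕ) :
    Finset (DirichletCharacter ℂ q) :=
  if h : q ≠ 0 ∧ ((H q).index : ℝ) ≤ lim ε N q then @dual q ⟨h.1⟩ (H q) else ∅

lemma Sd_ok (N : ℕ) (ε : ℝ) (H : (q : ℕ) → Subgroup (ZMod q)ˣ) (q : ℕ) :
    (∀ χ ∈ Sd N ε H q, χ ≠ 1) ∧ ((Sd N ε H q).card : ℝ) ≤ lim ε N q := by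
  unfold Sd
  split_ifs with h
  · haveI : NeZero q := ⟨h.1⟩
    refine ⟨fun χ hχ => dual_ne_one (H q) hχ, ?_⟩
    refine le_trans ?_ h.2
    exact_mod_cast card_dual (H q)
  · refine ⟨fun χ hχ => absurd hχ (notMem_empty χ), ?_⟩
    rw [card_empty, Nat.cast_zero]
    unfold lim
    positivity

/-- **one height** -/
theorem fixed (θ ε : ℝ) (hθ : 0 < θ) (hε : 0 < ε) (U : ℕ) : ∃ C : ℝ, 0 < C ∧
    ∀ N : ℕ, 3 ≤ N → ∀ Q : ℕ, (Q : ℝ) ≤ (N : ℝ) ^ θ →
    ∀ (H : (q : ℕ) → Subgroup (ZMod q)ˣ) (a : (q : ℕ) → (ZMod q)ˣ),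
    ∑ q ∈ (Icc 1 Q).filter (fun q => ((H q).index : ℝ) ≤ lim ε N q),
      (1 / (q : ℝ)) * D N q (H q) (a q) ≤ C * (N / Real.log N ^ U) := by
  obtain ⟨C, hC, h⟩ := chars θ ε hθ hε U
  obtain ⟨C2, hC2, habs⟩ := absorb 2 U 1 one_pos
  refine ⟨C + 2 * (1 + θ) ^ 2 * C2, by positivity, ?_⟩
  intro N hN Q hQ H a
  have hN0 : (0 : ℝ) < N := by exact_mod_cast (by omega : 0 < N)
  have hl := log_ge_one hN
  have h1 := h N hN Q hQ (Sd N ε H) (fun q _ => Sd_ok N ε H q)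
  have h2 : ∀ q ∈ (Icc 1 Q).filter (fun q => ((H q).index : ℝ) ≤ lim ε N q),
      (1 / (q : ℝ)) * D N q (H q) (a q) ≤
      (1 / (q : ℝ)) * ∑ χ ∈ Sd N ε H q, ‖PS N q χ‖ + (1 / (q : ℝ)) * (2 * (1 + Real.log Q)) := by
    intro q hq
    rw [mem_filter, mem_Icc] at hq
    have hq0 : q ≠ 0 := by omega
    haveI : NeZero q := ⟨hq0⟩
    rw [← mul_add]
    apply mul_le_mul_of_nonneg_left _ (by positivity)
    have h3 := coset_disc N (H q) (a q)
    have h4 : Sd N ε H q = dual (H q) := by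
      unfold Sd
      rw [dif_pos ⟨hq0, hq.2⟩]
    rw [h4]
    unfold D
    refine h3.trans ?_
    have h5 := omega_log q (by omega)
    have h6 : Real.log q ≤ Real.log Q :=
      Real.log_le_log (by exact_mod_cast (by omega : 0 < q)) (by exact_mod_cast hq.1.2)
    linarith
  refine (sum_le_sum h2).trans ?_
  rw [sum_add_distrib, ← sum_mul]
  have h3 : ∑ q ∈ (Icc 1 Q).filter (fun q => ((H q).index : ℝ) ≤ lim ε N q),
      (1 / (q : ℝ)) * ∑ χ ∈ Sd N ε H q, ‖PS N q χ‖ ≤ C * (N / Real.log N ^ U) := by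
    refine le_trans ?_ h1
    apply sum_le_sum_of_subset_of_nonneg (filter_subset _ _)
    intro q _ _
    exact mul_nonneg (by positivity) (sum_nonneg fun _ _ => norm_nonneg _)
  have h4 : ∑ q ∈ (Icc 1 Q).filter (fun q => ((H q).index : ℝ) ≤ lim ε N q), (1 / (q : ℝ)) ≤
      1 + Real.log Q := by
    refine le_trans ?_ (sum_inv_le Q)
    apply sum_le_sum_of_subset_of_nonneg (filter_subset _ _)
    intro q _ _
    positivity
  have hlQ : 0 ≤ Real.log Q := Real.log_natCast_nonneg Q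
  have hA : 1 + Real.log Q ≤ (1 + θ) * (1 + Real.log N) := by
    rcases Nat.eq_zero_or_pos Q with h0 | hQ1
    · subst h0
      rw [Nat.cast_zero, Real.log_zero]
      nlinarith
    · have hQ0 : (0 : ℝ) < Q := by exact_mod_cast hQ1
      have hlQN : Real.log Q ≤ θ * Real.log N := by
        rw [← Real.log_rpow hN0]
        exact Real.log_le_log hQ0 hQ
      nlinarith
  have h5 : (∑ q ∈ (Icc 1 Q).filter (fun q => ((H q).index : ℝ) ≤ lim ε N q), (1 / (q : ℝ))) *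
      (2 * (1 + Real.log Q)) ≤ 2 * (1 + θ) ^ 2 * C2 * (N / Real.log N ^ U) := by
    calc (∑ q ∈ (Icc 1 Q).filter (fun q => ((H q).index : ℝ) ≤ lim ε N q), (1 / (q : ℝ))) *
          (2 * (1 + Real.log Q))
        ≤ ((1 + θ) * (1 + Real.log N)) * (2 * ((1 + θ) * (1 + Real.log N))) := by
          have : 0 ≤ (1 + θ) * (1 + Real.log N) := by positivity
          gcongr
          exact h4.trans hA
      _ = 2 * (1 + θ) ^ 2 * ((1 + Real.log N) ^ 2 * (N : ℝ) ^ ((1 : ℝ) - 1)) := by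
          rw [sub_self, Real.rpow_zero]; ring
      _ ≤ 2 * (1 + θ) ^ 2 * (C2 * (N / Real.log N ^ U)) := by
          apply mul_le_mul_of_nonneg_left (habs N hN) (by positivity)
      _ = _ := by ring
  linarith

lemma cnt_mono {M N : ℕ} (h : M ≤ N) (q : ℕ) (H : Subgroup (ZMod q)ˣ) (a : (ZMod q)ˣ) :
    cnt M q H a ≤ cnt N q H a := by
  unfold cnt
  apply card_le_card
  apply filter_subset_filter
  exact Icc_subset_Icc le_rfl h

lemma pi_mono {M N : ℕ} (h : M ≤ N) : pi' M ≤ pi' N := by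
  unfold pi'
  have : ((Icc 1 M).filter (fun p : ℕ => p.Prime)).card ≤
      ((Icc 1 N).filter (fun p : ℕ => p.Prime)).card :=
    card_le_card (filter_subset_filter _ (Icc_subset_Icc le_rfl h))
  exact_mod_cast this

lemma pi_add (M s : ℕ) : pi' (M + s) ≤ pi' M + s := by
  unfold pi'
  have h1 : (Icc 1 (M + s)).filter (fun p : ℕ => p.Prime) ⊆
      (Icc 1 M).filter (fun p : ℕ => p.Prime) ∪ Ioc M (M + s) := by
    intro p hp
    rw [mem_filter, mem_Icc] at hp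
    rw [mem_union, mem_filter, mem_Icc, mem_Ioc]
    rcases le_or_gt p M with h | h
    · left; exact ⟨⟨hp.1.1, h⟩, hp.2⟩
    · right; exact ⟨h, hp.1.2⟩
  have h2 := (card_le_card h1).trans (card_union_le _ _)
  rw [Nat.card_Ioc] at h2
  have h3 : M + s - M = s := by omega
  rw [h3] at h2
  exact_mod_cast h2

lemma D_zero (q : ℕ) (H : Subgroup (ZMod q)ˣ) (a : (ZMod q)ˣ) : D 0 q H a = 0 := by
  unfold D cnt pi'
  simp

/-- between two heights -/
lemma D_between (M s Y q : ℕ) (h1 : M ≤ Y) (h2 : Y ≤ M + s) (H : Subgroup (ZMod q)ˣ)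
    (a : (ZMod q)ˣ) : D Y q H a ≤ D M q H a + D (M + s) q H a + s := by
  have m1 : (cnt M q H a : ℝ) ≤ cnt Y q H a := by exact_mod_cast cnt_mono h1 q H a
  have m2 : (cnt Y q H a : ℝ) ≤ cnt (M + s) q H a := by exact_mod_cast cnt_mono h2 q H a
  have m3 := pi_mono h1
  have m4 := pi_mono h2
  have m5 := pi_add M s
  have hi : (0 : ℝ) ≤ (H.index : ℝ) := Nat.cast_nonneg _
  have m1' := mul_le_mul_of_nonneg_left m1 hi
  have m2' := mul_le_mul_of_nonneg_left m2 hi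
  have n1 := neg_abs_le ((H.index : ℝ) * (cnt M q H a : ℝ) - pi' M)
  have n2 := le_abs_self ((H.index : ℝ) * (cnt (M + s) q H a : ℝ) - pi' (M + s))
  have n3 := D_nonneg M q H a
  have n4 := D_nonneg (M + s) q H a
  unfold D at *
  rw [abs_le]
  constructor <;> linarith

/-- the bound for the index decreases slowly with the height -/
lemma lim_le (ε : ℝ) (hε : 0 < ε) (hε1 : ε ≤ 1 / 4) (N h q : ℕ) (hN : 1 ≤ N)
    (hh : (N : ℝ) ^ (1 - ε / 2) ≤ h) : lim ε N q ≤ lim (ε / 2) h q := by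
  have hN0 : (0 : ℝ) < N := by exact_mod_cast hN
  have hN1 : (1 : ℝ) ≤ N := by exact_mod_cast hN
  have hh0 : (0 : ℝ) < h := lt_of_lt_of_le (by positivity) hh
  unfold lim
  rw [mul_max_of_nonneg _ _ (by positivity), mul_max_of_nonneg _ _ (by positivity)]
  apply max_le_max
  · rw [← Real.rpow_add hN0, ← Real.rpow_add hh0]
    calc (N : ℝ) ^ (-ε + 1 / 4) ≤ (N : ℝ) ^ ((1 - ε / 2) * (-(ε / 2) + 1 / 4)) := by
          apply Real.rpow_le_rpow_of_exponent_le hN1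
          nlinarith
      _ = ((N : ℝ) ^ (1 - ε / 2)) ^ (-(ε / 2) + 1 / 4) := Real.rpow_mul hN0.le _ _
      _ ≤ _ := Real.rpow_le_rpow (by positivity) hh (by linarith)
  · rw [← mul_div_assoc, ← mul_div_assoc]
    apply div_le_div_of_nonneg_right _ (Nat.cast_nonneg q)
    have e1 : (N : ℝ) ^ (-ε) * N = (N : ℝ) ^ (1 - ε) := by
      nth_rewrite 2 [← Real.rpow_one (N : ℝ)]
      rw [← Real.rpow_add hN0]
      congr 1
      ring
    have e2 : (h : ℝ) ^ (-(ε / 2)) * h = (h : ℝ) ^ (1 - ε / 2) := by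
      nth_rewrite 2 [← Real.rpow_one (h : ℝ)]
      rw [← Real.rpow_add hh0]
      congr 1
      ring
    rw [e1, e2]
    calc (N : ℝ) ^ (1 - ε) ≤ (N : ℝ) ^ ((1 - ε / 2) * (1 - ε / 2)) := by
          apply Real.rpow_le_rpow_of_exponent_le hN1
          nlinarith
      _ = ((N : ℝ) ^ (1 - ε / 2)) ^ (1 - ε / 2) := Real.rpow_mul hN0.le _ _
      _ ≤ _ := Real.rpow_le_rpow (by positivity) hh (by linarith)

lemma lim_le_self (ε : ℝ) (hε : 0 < ε) (N q : ℕ) (hN : 1 ≤ N) (hq : 1 ≤ q) : lim ε N q ≤ N := by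
  have hN0 : (0 : ℝ) < N := by exact_mod_cast hN
  have hN1 : (1 : ℝ) ≤ N := by exact_mod_cast hN
  have hq1 : (1 : ℝ) ≤ q := by exact_mod_cast hq
  unfold lim
  have h4 : max ((N : ℝ) ^ (1 / 4 : ℝ)) ((N : ℝ) / q) ≤ N := by
    apply max_le
    · calc (N : ℝ) ^ (1 / 4 : ℝ) ≤ (N : ℝ) ^ (1 : ℝ) :=
          Real.rpow_le_rpow_of_exponent_le hN1 (by norm_num)
        _ = N := Real.rpow_one _
    · exact div_le_self hN0.le hq1
  have h5 : (N : ℝ) ^ (-ε) ≤ 1 := Real.rpow_le_one_of_one_le_of_nonpos hN1 (by linarith)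
  have h6 : 0 ≤ (N : ℝ) ^ (-ε) := Real.rpow_nonneg hN0.le _
  calc (N : ℝ) ^ (-ε) * max ((N : ℝ) ^ (1 / 4 : ℝ)) ((N : ℝ) / q) ≤ 1 * N := by gcongr
    _ = N := one_mul _

/-- trivial bound -/
lemma D_triv (Y N q : ℕ) (hY : Y ≤ N) (H : Subgroup (ZMod q)ˣ) (a : (ZMod q)ˣ) :
    D Y q H a ≤ ((H.index : ℝ) + 1) * N := by
  have h1 : (cnt Y q H a : ℝ) ≤ N := by
    have h2 : cnt Y q H a ≤ Y := by
      unfold cnt
      refine (card_filter_le _ _).trans ?_
      rw [Nat.card_Icc]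
      omega
    exact_mod_cast h2.trans hY
  have h2 : pi' Y ≤ N := by
    unfold pi'
    have h3 : ((Icc 1 Y).filter (fun p : ℕ => p.Prime)).card ≤ Y := by
      refine (card_filter_le _ _).trans ?_
      rw [Nat.card_Icc]
      omega
    exact_mod_cast h3.trans hY
  have h3 : 0 ≤ pi' Y := by unfold pi'; positivity
  have h4 : (0 : ℝ) ≤ cnt Y q H a := Nat.cast_nonneg _
  have hi : (0 : ℝ) ≤ (H.index : ℝ) := Nat.cast_nonneg _
  have h5 := mul_le_mul_of_nonneg_left h1 hi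
  have h6 := mul_nonneg hi h4
  have h7 : (0 : ℝ) ≤ N := Nat.cast_nonneg _
  have h8 := mul_nonneg hi h7
  unfold D
  rw [abs_le]
  constructor <;> linarith

end Pool.Agent.N766.CS
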