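import Pool.Agent.N766.CS.Chr
import Mathlib.Analysis.Fourier.FiniteAbelian.PontryaginDuality

/-!
The primes in the cosets of a subgroup in terms of the characters of the quotient.
-/

set_option autoImplicit false

open Finset

namespace Pool.Agent.N766.CS

open Pool.Agent.H441R3.BV (PS)
open Classical

/-- the quotient group, written additively -/
def QA {q : ℕ} (H : Subgroup (ZMod q)ˣ) : Type := Additive ((ZMod q)ˣ ⧸ H)

noncomputable instance {q : ℕ} (H : Subgroup (ZMod q)ˣ) : AddCommGroup (QA H) :=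
  inferInstanceAs (AddCommGroup (Additive ((ZMod q)ˣ ⧸ H)))

/-- the class of a unit -/
def cls {q : ℕ} (H : Subgroup (ZMod q)ˣ) (u : (ZMod q)ˣ) : QA H :=
  Additive.ofMul (QuotientGroup.mk u)

lemma cls_one {q : ℕ} (H : Subgroup (ZMod q)ˣ) : cls H 1 = 0 := rfl

lemma cls_mul {q : ℕ} (H : Subgroup (ZMod q)ˣ) (u v : (ZMod q)ˣ) :
    cls H (u * v) = cls H u + cls H v := rfl

lemma cls_eq_zero {q : ℕ} (H : Subgroup (ZMod q)ˣ) (u : (ZMod q)ˣ) : cls H u = 0 ↔ u ∈ H := by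
  have h : cls H u = 0 ↔ (QuotientGroup.mk u : (ZMod q)ˣ ⧸ H) = 1 := by
    unfold cls
    exact ofMul_eq_zero
  rw [h, QuotientGroup.eq_one_iff]

lemma cls_surj {q : ℕ} (H : Subgroup (ZMod q)ˣ) (x : QA H) : ∃ u, cls H u = x := by
  obtain ⟨u, hu⟩ := QuotientGroup.mk_surjective (Additive.toMul x)
  exact ⟨u, by unfold cls; rw [hu]; rfl⟩

/-- a character of the quotient as a homomorphism -/
noncomputable def homOf {q : ℕ} (H : Subgroup (ZMod q)ˣ) (ψ : AddChar (QA H) ℂ) :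
    (ZMod q)ˣ →* ℂ where
  toFun u := ψ (cls H u)
  map_one' := by rw [cls_one, AddChar.map_zero_eq_one]
  map_mul' u v := by rw [cls_mul, AddChar.map_add_eq_mul]

/-- a character of the quotient as a Dirichlet character -/
noncomputable def chi {q : ℕ} (H : Subgroup (ZMod q)ˣ) (ψ : AddChar (QA H) ℂ) :
    DirichletCharacter ℂ q := MulChar.ofUnitHom (homOf H ψ).toHomUnits

lemma chi_coe {q : ℕ} (H : Subgroup (ZMod q)ˣ) (ψ : AddChar (QA H) ℂ) (u : (ZMod q)ˣ) :
    chi H ψ (u : ZMod q) = ψ (cls H u) := by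
  unfold chi
  rw [MulChar.ofUnitHom_coe, MonoidHom.coe_toHomUnits]
  rfl

lemma chi_inj {q : ℕ} (H : Subgroup (ZMod q)ˣ) : Function.Injective (chi H) := by
  intro ψ φ h
  ext x
  obtain ⟨u, rfl⟩ := cls_surj H x
  rw [← chi_coe, ← chi_coe, h]

lemma chi_zero {q : ℕ} (H : Subgroup (ZMod q)ˣ) : chi H 0 = 1 := by
  ext u
  rw [chi_coe]
  simp

lemma chi_ne_one {q : ℕ} (H : Subgroup (ZMod q)ˣ) {ψ : AddChar (QA H) ℂ} (h : ψ ≠ 0) :
    chi H ψ ≠ 1 := by
  rw [← chi_zero H]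
  exact fun h2 => h (chi_inj H h2)

section
variable {q : ℕ} [NeZero q]

noncomputable instance (H : Subgroup (ZMod q)ˣ) : Fintype (QA H) :=
  haveI : Finite (QA H) := inferInstanceAs (Finite ((ZMod q)ˣ ⧸ H))
  Fintype.ofFinite _

lemma card_QA (H : Subgroup (ZMod q)ˣ) : Fintype.card (QA H) = H.index := by
  rw [Subgroup.index, ← Nat.card_eq_fintype_card]
  rfl

/-- the nonprincipal characters which are trivial on `H` -/
noncomputable def dual (H : Subgroup (ZMod q)ˣ) : Finset (DirichletCharacter ℂ q) :=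
  ((univ : Finset (AddChar (QA H) ℂ)).filter (fun ψ => ψ ≠ 0)).image (chi H)

lemma dual_ne_one (H : Subgroup (ZMod q)ˣ) {χ : DirichletCharacter ℂ q} (h : χ ∈ dual H) :
    χ ≠ 1 := by
  unfold dual at h
  rw [mem_image] at h
  obtain ⟨ψ, hψ, rfl⟩ := h
  rw [mem_filter] at hψ
  exact chi_ne_one H hψ.2

lemma card_dual (H : Subgroup (ZMod q)ˣ) : (dual H).card ≤ H.index := by
  unfold dual
  refine card_image_le.trans ((card_filter_le _ _).trans ?_)
  rw [card_univ, AddChar.card_eq, card_QA]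

/-- the number of the primes up to `N` in the coset `a H` -/
noncomputable def cnt (N q : ℕ) (H : Subgroup (ZMod q)ˣ) (a : (ZMod q)ˣ) : ℕ :=
  ((Icc 1 N).filter (fun p : ℕ => p.Prime ∧ ∃ h ∈ H, (p : ZMod q) = ((a * h : (ZMod q)ˣ) : ZMod q))).card

/-- the number of the primes up to `N` -/
noncomputable def pi' (N : ℕ) : ℝ := (((Icc 1 N).filter (fun p : ℕ => p.Prime)).card : ℝ)

lemma coset_eq (N : ℕ) (H : Subgroup (ZMod q)ˣ) (a : (ZMod q)ˣ) :
    ((H.index : ℝ) : ℂ) * ((cnt N q H a : ℝ) : ℂ) =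
      ∑ ψ : AddChar (QA H) ℂ, ψ (cls H a⁻¹) * PS N q (chi H ψ) := by
  have h1 : ∀ ψ : AddChar (QA H) ℂ, ψ (cls H a⁻¹) * PS N q (chi H ψ) =
      ∑ p ∈ P N, ψ (cls H a⁻¹) * chi H ψ (p : ZMod q) := by
    intro ψ
    rw [PS_eq, mul_sum]
  rw [sum_congr rfl fun ψ _ => h1 ψ, sum_comm]
  have h2 : ∀ p ∈ P N, ∑ ψ : AddChar (QA H) ℂ, ψ (cls H a⁻¹) * chi H ψ (p : ZMod q) =
      if ∃ h ∈ H, (p : ZMod q) = ((a * h : (ZMod q)ˣ) : ZMod q) then ((H.index : ℝ) : ℂ) else 0 := by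
    intro p _
    by_cases hu : IsUnit (p : ZMod q)
    · obtain ⟨u, hu⟩ := hu
      have h3 : ∀ ψ : AddChar (QA H) ℂ, ψ (cls H a⁻¹) * chi H ψ (p : ZMod q) =
          ψ (cls H (a⁻¹ * u)) := by
        intro ψ
        rw [← hu, chi_coe, cls_mul, AddChar.map_add_eq_mul]
      rw [sum_congr rfl fun ψ _ => h3 ψ, AddChar.sum_apply_eq_ite, card_QA]
      have h4 : (cls H (a⁻¹ * u) = 0) ↔
          ∃ h ∈ H, (p : ZMod q) = ((a * h : (ZMod q)ˣ) : ZMod q) := by
        rw [cls_eq_zero, ← hu]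
        constructor
        · intro h5
          exact ⟨a⁻¹ * u, h5, by rw [mul_inv_cancel_left]⟩
        · rintro ⟨h, hh, h5⟩
          rw [Units.val_inj] at h5
          rw [h5, inv_mul_cancel_left]
          exact hh
      by_cases h5 : cls H (a⁻¹ * u) = 0
      · rw [if_pos h5, if_pos (h4.1 h5)]
        push_cast
        rfl
      · rw [if_neg h5, if_neg (fun h6 => h5 (h4.2 h6))]
    · have h3 : ∀ ψ : AddChar (QA H) ℂ, ψ (cls H a⁻¹) * chi H ψ (p : ZMod q) = 0 := by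
        intro ψ
        rw [MulChar.map_nonunit _ hu, mul_zero]
      rw [sum_congr rfl fun ψ _ => h3 ψ, sum_const_zero, if_neg]
      rintro ⟨h, _, h5⟩
      exact hu (by rw [h5]; exact Units.isUnit _)
  rw [sum_congr rfl h2, ← sum_filter, sum_const, nsmul_eq_mul, mul_comm]
  congr 1
  unfold cnt P
  rw [filter_filter]
  push_cast
  rfl

/-- **the discrepancy of the cosets** -/
theorem coset_disc (N : ℕ) (H : Subgroup (ZMod q)ˣ) (a : (ZMod q)ˣ) :
    |(H.index : ℝ) * (cnt N q H a : ℝ) - pi' N| ≤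
      ∑ χ ∈ dual H, ‖PS N q χ‖ + (q.primeFactors.card : ℝ) := by
  have h0 : ((0 : AddChar (QA H) ℂ)) ∈ (univ : Finset (AddChar (QA H) ℂ)) := mem_univ _
  have h1 := coset_eq N H a
  rw [← sum_filter_add_sum_filter_not univ (fun ψ : AddChar (QA H) ℂ => ψ ≠ 0)] at h1
  have e1 : ((univ : Finset (AddChar (QA H) ℂ)).filter (fun ψ => ¬ ψ ≠ 0)) = {0} := by
    ext ψ
    rw [mem_filter, mem_singleton]
    simp
  rw [e1, sum_singleton, chi_zero] at h1
  have e2 : PS N q (1 : DirichletCharacter ℂ q) =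
      (((((Icc 1 N).filter (fun p : ℕ => p.Prime ∧ p.Coprime q)).card : ℝ)) : ℂ) := by
    rw [PS_eq]
    have e3 : ∀ p ∈ P N, (1 : DirichletCharacter ℂ q) (p : ZMod q) =
        if p.Coprime q then 1 else 0 := by
      intro p _
      split_ifs with h
      · exact MulChar.one_apply ((ZMod.isUnit_iff_coprime p q).2 h)
      · exact MulChar.map_nonunit _ (by rwa [ZMod.isUnit_iff_coprime])
    rw [sum_congr rfl e3, sum_boole]
    unfold P
    rw [filter_filter]
    push_cast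
    rfl
  have e4 : ((0 : AddChar (QA H) ℂ)) (cls H a⁻¹) = 1 := by simp
  rw [e2, e4, one_mul] at h1
  set pd : ℝ := (((Icc 1 N).filter (fun p : ℕ => p.Prime ∧ p.Coprime q)).card : ℝ) with hpd
  have h2 : (((H.index : ℝ) * (cnt N q H a : ℝ) - pd : ℝ) : ℂ) =
      ∑ ψ ∈ (univ : Finset (AddChar (QA H) ℂ)).filter (fun ψ => ψ ≠ 0),
        ψ (cls H a⁻¹) * PS N q (chi H ψ) := by
    push_cast
    push_cast at h1
    rw [h1]
    ring
  have h3 : |(H.index : ℝ) * (cnt N q H a : ℝ) - pd| ≤ ∑ χ ∈ dual H, ‖PS N q χ‖ := by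
    rw [← Real.norm_eq_abs, ← Complex.norm_real, h2]
    refine (norm_sum_le _ _).trans ?_
    unfold dual
    rw [sum_image fun x _ y _ h => chi_inj H h]
    apply sum_le_sum
    intro ψ _
    rw [norm_mul]
    have : ‖ψ (cls H a⁻¹)‖ = 1 := ψ.norm_apply _
    rw [this, one_mul]
  have h4 := Pool.Agent.TH926.EH.coprime_count N q (NeZero.ne q)
  have h5 : (H.index : ℝ) * (cnt N q H a : ℝ) - pi' N =
      ((H.index : ℝ) * (cnt N q H a : ℝ) - pd) + (pd - pi' N) := by ring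
  rw [h5]
  refine (abs_add_le _ _).trans ?_
  unfold pi'
  exact add_le_add h3 h4

end

end Pool.Agent.N766.CS
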