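import Pool.Agent.N766.CS.Blk

/-!
Sparse sets of characters: the sum over all the moduli.
-/

set_option autoImplicit false

open Finset Filter

namespace Pool.Agent.N766.CS

open Pool.Agent.H398R2.BV (Prim)
open Pool.Agent.Helper112
open Pool.Agent.H441R3.BV (PS PS_change nlog_le omega_log)
open Pool.Agent.TH926.EH (low_cond log_pow_le)
open Classical

/-- a block of conductors up to `N ^ (3/4)` -/
lemma blk_one (N Q F : ℕ) (hN : 1 ≤ N) (hF : 1 ≤ F) (ε : ℝ)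
    (hF1 : (N : ℝ) ^ (1 / 2 - ε / 4) ≤ 4 * F) (hF2 : (F : ℝ) ≤ (N : ℝ) ^ (3 / 4 : ℝ))
    (hε : 0 < ε)
    (S : (q : ℕ) → Finset (DirichletCharacter ℂ q))
    (hS : ∀ q ∈ Icc 1 Q, ((S q).card : ℝ) ≤
      (N : ℝ) ^ (-ε) * max ((N : ℝ) ^ (1 / 4 : ℝ)) ((N : ℝ) / q)) :
    ∑ q ∈ Icc 1 Q, (1 / (q : ℝ)) * ∑ χ ∈ blk (S q) F (2 * F), gg N q χ ≤
      16 * (1 + Real.log Q) * (N : ℝ) ^ (1 - ε / 4) := by
  have hF0 : (0 : ℝ) < F := by exact_mod_cast hF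
  have hN0 : (0 : ℝ) < N := by exact_mod_cast hN
  have hN1 : (1 : ℝ) ≤ N := by exact_mod_cast hN
  have hlQ : 0 ≤ Real.log Q := Real.log_natCast_nonneg Q
  set A : ℝ := 1 + Real.log Q with hA
  have hA1 : 1 ≤ A := by rw [hA]; linarith
  have h1 := holder_blk N Q F 1 le_rfl S
  have hW := weight_blk N Q F hF ε S hS
  have hZ := moment_blk N Q F 1 hF S
  set X := ∑ q ∈ Icc 1 Q, (1 / (q : ℝ)) * ∑ χ ∈ blk (S q) F (2 * F), gg N q χ with hX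
  set W := ∑ q ∈ Icc 1 Q, (1 / (q : ℝ)) * ((blk (S q) F (2 * F)).card : ℝ) with hWd
  set Z := ∑ q ∈ Icc 1 Q, (1 / (q : ℝ)) * ∑ χ ∈ blk (S q) F (2 * F), gg N q χ ^ (2 * 1) with hZd
  have hW0 : 0 ≤ W := sum_nonneg fun _ _ => by positivity
  have hZ0 : 0 ≤ Z := sum_nonneg fun q _ => mul_nonneg (by positivity)
    (sum_nonneg fun χ _ => pow_nonneg (gg_nonneg _ _ _) _)
  have e1 : (1 - ((2 * 1 : ℕ) : ℝ)⁻¹) = 1 / 2 := by norm_num
  have e2 : (((2 * 1 : ℕ) : ℝ)⁻¹) = 1 / 2 := by norm_num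
  rw [e1, e2, ← Real.mul_rpow hW0 hZ0] at h1
  have hq4 : (N : ℝ) ^ (1 / 4 : ℝ) ≤ N / F := by
    rw [le_div_iff₀ hF0]
    calc (N : ℝ) ^ (1 / 4 : ℝ) * F ≤ (N : ℝ) ^ (1 / 4 : ℝ) * (N : ℝ) ^ (3 / 4 : ℝ) := by gcongr
      _ = N := by rw [← Real.rpow_add hN0]; norm_num
  have hNF : 0 ≤ (N : ℝ) / F := by positivity
  have hW2 : W ≤ (N : ℝ) ^ (-ε) * (2 * A * (N / F)) := by
    refine hW.trans ?_
    apply mul_le_mul_of_nonneg_left _ (Real.rpow_nonneg hN0.le _)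
    nlinarith
  have hZ2 : Z ≤ A * ((1 / (F : ℝ)) * (6 * (N + 4 * (F : ℝ) ^ 2) * N)) := by
    refine hZ.trans (le_of_eq ?_)
    rw [hA]
    norm_num
  have hNF2 : (N : ℝ) / (F : ℝ) ^ 2 ≤ 16 * (N : ℝ) ^ (ε / 2) := by
    rw [div_le_iff₀ (by positivity)]
    have h3 : ((N : ℝ) ^ (1 / 2 - ε / 4)) ^ 2 ≤ (4 * F) ^ 2 :=
      pow_le_pow_left₀ (Real.rpow_nonneg hN0.le _) hF1 2
    have h4 : (N : ℝ) = (N : ℝ) ^ (ε / 2) * ((N : ℝ) ^ (1 / 2 - ε / 4)) ^ 2 := by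
      rw [← Real.rpow_natCast, ← Real.rpow_mul hN0.le, ← Real.rpow_add hN0]
      have : ε / 2 + (1 / 2 - ε / 4) * ((2 : ℕ) : ℝ) = 1 := by push_cast; ring
      rw [this, Real.rpow_one]
    calc (N : ℝ) = (N : ℝ) ^ (ε / 2) * ((N : ℝ) ^ (1 / 2 - ε / 4)) ^ 2 := h4
      _ ≤ (N : ℝ) ^ (ε / 2) * (4 * F) ^ 2 := by gcongr
      _ = _ := by ring
  have hNe1 : 1 ≤ (N : ℝ) ^ (ε / 2) := Real.one_le_rpow hN1 (by linarith)
  have hWZ : W * Z ≤ (16 * A * (N : ℝ) ^ (1 - ε / 4)) ^ 2 := by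
    calc W * Z ≤ ((N : ℝ) ^ (-ε) * (2 * A * (N / F))) *
          (A * ((1 / (F : ℝ)) * (6 * (N + 4 * (F : ℝ) ^ 2) * N))) := by gcongr
      _ = 12 * A ^ 2 * ((N : ℝ) ^ (-ε) * (N : ℝ) ^ 2) * (N / (F : ℝ) ^ 2 + 4) := by
          field_simp
          ring
      _ ≤ 12 * A ^ 2 * ((N : ℝ) ^ (-ε) * (N : ℝ) ^ 2) * (16 * (N : ℝ) ^ (ε / 2) +
          4 * (N : ℝ) ^ (ε / 2)) := by
          apply mul_le_mul_of_nonneg_left _ (by positivity)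
          linarith
      _ = 240 * A ^ 2 * ((N : ℝ) ^ (-ε) * (N : ℝ) ^ 2 * (N : ℝ) ^ (ε / 2)) := by ring
      _ = 240 * A ^ 2 * ((N : ℝ) ^ (1 - ε / 4)) ^ 2 := by
          congr 1
          rw [← Real.rpow_natCast, ← Real.rpow_natCast, ← Real.rpow_mul hN0.le,
            ← Real.rpow_add hN0, ← Real.rpow_add hN0]
          congr 1
          push_cast
          ring
      _ ≤ 256 * A ^ 2 * ((N : ℝ) ^ (1 - ε / 4)) ^ 2 := by
          apply mul_le_mul_of_nonneg_right _ (by positivity)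
          nlinarith [sq_nonneg A]
      _ = _ := by ring
  refine h1.trans ?_
  have hY0 : 0 ≤ 16 * A * (N : ℝ) ^ (1 - ε / 4) := by positivity
  calc (W * Z) ^ (1 / 2 : ℝ) ≤ ((16 * A * (N : ℝ) ^ (1 - ε / 4)) ^ 2) ^ (1 / 2 : ℝ) := by
        apply Real.rpow_le_rpow (mul_nonneg hW0 hZ0) hWZ (by norm_num)
    _ = 16 * A * (N : ℝ) ^ (1 - ε / 4) := by
        rw [← Real.sqrt_eq_rpow, Real.sqrt_sq hY0]

/-- a block of large conductors -/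
lemma blk_r (N Q F r : ℕ) (hN : 1 ≤ N) (hF : 1 ≤ F) (hr : 1 ≤ r) (ε : ℝ) (hε : 0 < ε)
    (hF1 : (N : ℝ) ^ ((r : ℝ) / 2 - 1 / 4) ≤ F) (hF2 : (F : ℝ) ≤ (N : ℝ) ^ ((r : ℝ) / 2 + 1 / 4))
    (hF3 : (N : ℝ) ^ (3 / 4 : ℝ) ≤ F)
    (S : (q : ℕ) → Finset (DirichletCharacter ℂ q))
    (hS : ∀ q ∈ Icc 1 Q, ((S q).card : ℝ) ≤
      (N : ℝ) ^ (-ε) * max ((N : ℝ) ^ (1 / 4 : ℝ)) ((N : ℝ) / q)) :
    ∑ q ∈ Icc 1 Q, (1 / (q : ℝ)) * ∑ χ ∈ blk (S q) F (2 * F), gg N q χ ≤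
      30 * (r : ℝ) ^ r * (1 + Real.log Q) * (N : ℝ) ^ (1 - ε / 4) := by
  have hF0 : (0 : ℝ) < F := by exact_mod_cast hF
  have hN0 : (0 : ℝ) < N := by exact_mod_cast hN
  have hN1 : (1 : ℝ) ≤ N := by exact_mod_cast hN
  have hr0 : (1 : ℝ) ≤ r := by exact_mod_cast hr
  have hlQ : 0 ≤ Real.log Q := Real.log_natCast_nonneg Q
  set A : ℝ := 1 + Real.log Q with hA
  have hA1 : 1 ≤ A := by rw [hA]; linarith
  have hrr : (1 : ℝ) ≤ (r : ℝ) ^ r := one_le_pow₀ hr0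
  have h1 := holder_blk N Q F r hr S
  have hW := weight_blk N Q F hF ε S hS
  have hZ := moment_blk N Q F r hF S
  set X := ∑ q ∈ Icc 1 Q, (1 / (q : ℝ)) * ∑ χ ∈ blk (S q) F (2 * F), gg N q χ with hX
  set W := ∑ q ∈ Icc 1 Q, (1 / (q : ℝ)) * ((blk (S q) F (2 * F)).card : ℝ) with hWd
  set Z := ∑ q ∈ Icc 1 Q, (1 / (q : ℝ)) * ∑ χ ∈ blk (S q) F (2 * F), gg N q χ ^ (2 * r) with hZd
  have hW0 : 0 ≤ W := sum_nonneg fun _ _ => by positivity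
  have hZ0 : 0 ≤ Z := sum_nonneg fun q _ => mul_nonneg (by positivity)
    (sum_nonneg fun χ _ => pow_nonneg (gg_nonneg _ _ _) _)
  set c : ℝ := 30 * (r : ℝ) ^ r * A with hc
  have hc0 : 0 < c := by positivity
  have hq4 : (N : ℝ) / F ≤ (N : ℝ) ^ (1 / 4 : ℝ) := by
    rw [div_le_iff₀ hF0]
    calc (N : ℝ) = (N : ℝ) ^ (1 / 4 : ℝ) * (N : ℝ) ^ (3 / 4 : ℝ) := by
          rw [← Real.rpow_add hN0]; norm_num
      _ ≤ _ := by gcongr
  have hW2 : W ≤ c * (N : ℝ) ^ (1 / 4 - ε) := by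
    calc W ≤ (N : ℝ) ^ (-ε) * ((N : ℝ) ^ (1 / 4 : ℝ) * A + N / F) := hW
      _ ≤ (N : ℝ) ^ (-ε) * ((N : ℝ) ^ (1 / 4 : ℝ) * A + (N : ℝ) ^ (1 / 4 : ℝ) * A) := by
          gcongr
          nlinarith [Real.rpow_nonneg hN0.le (1 / 4 : ℝ)]
      _ = 2 * A * ((N : ℝ) ^ (1 / 4 : ℝ) * (N : ℝ) ^ (-ε)) := by ring
      _ = 2 * A * (N : ℝ) ^ (1 / 4 - ε) := by
          rw [← Real.rpow_add hN0, sub_eq_add_neg]
      _ ≤ c * (N : ℝ) ^ (1 / 4 - ε) := by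
          apply mul_le_mul_of_nonneg_right _ (by positivity)
          rw [hc]
          nlinarith
  have hZ2 : Z ≤ c * (N : ℝ) ^ (3 * (r : ℝ) / 2 + 1 / 4) := by
    have h3 : (N : ℝ) ^ r / F ≤ (N : ℝ) ^ ((r : ℝ) / 2 + 1 / 4) := by
      rw [div_le_iff₀ hF0]
      calc (N : ℝ) ^ r = (N : ℝ) ^ ((r : ℝ) / 2 + 1 / 4) * (N : ℝ) ^ ((r : ℝ) / 2 - 1 / 4) := by
            rw [← Real.rpow_add hN0, ← Real.rpow_natCast]
            congr 1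
            ring
        _ ≤ _ := by gcongr
    calc Z ≤ A * ((1 / (F : ℝ)) *
        (6 * ((N : ℝ) ^ r + 4 * (F : ℝ) ^ 2) * ((r : ℝ) ^ r * (N : ℝ) ^ r))) := hZ
      _ = 6 * (r : ℝ) ^ r * A * (N : ℝ) ^ r * ((N : ℝ) ^ r / F + 4 * F) := by
          field_simp
      _ ≤ 6 * (r : ℝ) ^ r * A * (N : ℝ) ^ r * ((N : ℝ) ^ ((r : ℝ) / 2 + 1 / 4) +
          4 * (N : ℝ) ^ ((r : ℝ) / 2 + 1 / 4)) := by
          gcongr
      _ = c * ((N : ℝ) ^ r * (N : ℝ) ^ ((r : ℝ) / 2 + 1 / 4)) := by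
          rw [hc]; ring
      _ = c * (N : ℝ) ^ (3 * (r : ℝ) / 2 + 1 / 4) := by
          rw [← Real.rpow_natCast, ← Real.rpow_add hN0]
          congr 2
          ring
  refine h1.trans ?_
  have hs : ((2 * r : ℕ) : ℝ)⁻¹ = 1 / (2 * r) := by push_cast; rw [one_div]
  rw [hs]
  set s : ℝ := 1 / (2 * (r : ℝ)) with hsd
  have hs0 : 0 < s := by positivity
  have hs1 : s ≤ 1 / 2 := by
    rw [hsd, div_le_div_iff₀ (by positivity) (by norm_num)]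
    linarith
  have hsr : s * r = 1 / 2 := by
    rw [hsd]; field_simp
  calc W ^ (1 - s) * Z ^ s ≤ (c * (N : ℝ) ^ (1 / 4 - ε)) ^ (1 - s) *
        (c * (N : ℝ) ^ (3 * (r : ℝ) / 2 + 1 / 4)) ^ s := by
        apply mul_le_mul
        · exact Real.rpow_le_rpow hW0 hW2 (by linarith)
        · exact Real.rpow_le_rpow hZ0 hZ2 hs0.le
        · exact Real.rpow_nonneg hZ0 _
        · positivity
    _ = (c ^ (1 - s) * c ^ s) * ((N : ℝ) ^ ((1 / 4 - ε) * (1 - s)) *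
          (N : ℝ) ^ ((3 * (r : ℝ) / 2 + 1 / 4) * s)) := by
        rw [Real.mul_rpow hc0.le (by positivity), Real.mul_rpow hc0.le (by positivity),
          ← Real.rpow_mul hN0.le, ← Real.rpow_mul hN0.le]
        ring
    _ = c * (N : ℝ) ^ ((1 / 4 - ε) * (1 - s) + (3 * (r : ℝ) / 2 + 1 / 4) * s) := by
        rw [← Real.rpow_add hc0, ← Real.rpow_add hN0]
        have : 1 - s + s = 1 := by ring
        rw [this, Real.rpow_one]
    _ ≤ c * (N : ℝ) ^ (1 - ε / 4) := by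
        apply mul_le_mul_of_nonneg_left _ hc0.le
        apply Real.rpow_le_rpow_of_exponent_le hN1
        have : (1 / 4 - ε) * (1 - s) + (3 * (r : ℝ) / 2 + 1 / 4) * s =
            1 / 4 - ε + 3 / 2 * (s * r) + ε * s := by ring
        rw [this, hsr]
        nlinarith
    _ = _ := by rw [hc]

/-- a block, all cases -/
lemma blk_all (θ ε : ℝ) (hε : 0 < ε) : ∃ C : ℝ, 0 < C ∧
    ∀ N : ℕ, 3 ≤ N → ∀ Q F : ℕ, 1 ≤ F → F ≤ Q → (Q : ℝ) ≤ (N : ℝ) ^ θ →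
    (N : ℝ) ^ (1 / 2 - ε / 4) ≤ 4 * F →
    ∀ S : (q : ℕ) → Finset (DirichletCharacter ℂ q),
    (∀ q ∈ Icc 1 Q, ((S q).card : ℝ) ≤
      (N : ℝ) ^ (-ε) * max ((N : ℝ) ^ (1 / 4 : ℝ)) ((N : ℝ) / q)) →
    ∑ q ∈ Icc 1 Q, (1 / (q : ℝ)) * ∑ χ ∈ blk (S q) F (2 * F), gg N q χ ≤
      C * (1 + Real.log Q) * (N : ℝ) ^ (1 - ε / 4) := by
  set R : ℕ := ⌊2 * θ + 1⌋₊ with hR
  refine ⟨30 * ((R : ℝ) + 1) ^ R + 16, by positivity, ?_⟩
  intro N hN Q F hF hFQ hQ hF1 S hS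
  have hN1 : 1 ≤ N := by omega
  have hN0 : (0 : ℝ) < N := by exact_mod_cast hN1
  have hNr : (1 : ℝ) < N := by exact_mod_cast (by omega : 1 < N)
  have hF0 : (0 : ℝ) < F := by exact_mod_cast hF
  have hlQ : 0 ≤ Real.log Q := Real.log_natCast_nonneg Q
  have hNp : 0 < (N : ℝ) ^ (1 - ε / 4) := Real.rpow_pos_of_pos hN0 _
  rcases le_total (F : ℝ) ((N : ℝ) ^ (3 / 4 : ℝ)) with h | h
  · refine (blk_one N Q F hN1 hF ε hF1 h hε S hS).trans ?_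
    have : 0 ≤ 30 * ((R : ℝ) + 1) ^ R := by positivity
    gcongr
    linarith
  · have hl : 0 < Real.log N := Real.log_pos hNr
    set φ : ℝ := Real.log F / Real.log N with hφ
    have hφN : (N : ℝ) ^ φ = F := by
      rw [Real.rpow_def_of_pos hN0, hφ, mul_div_cancel₀ _ hl.ne', Real.exp_log hF0]
    have hφ34 : 3 / 4 ≤ φ := by
      by_contra hcon
      push Not at hcon
      have h2 : (N : ℝ) ^ φ < (N : ℝ) ^ (3 / 4 : ℝ) := Real.rpow_lt_rpow_of_exponent_lt hNr hcon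
      rw [hφN] at h2
      linarith
    have hφθ : φ ≤ θ := by
      by_contra hcon
      push Not at hcon
      have h2 : (N : ℝ) ^ θ < (N : ℝ) ^ φ := Real.rpow_lt_rpow_of_exponent_lt hNr hcon
      rw [hφN] at h2
      have h3 : (F : ℝ) ≤ Q := by exact_mod_cast hFQ
      linarith
    set r : ℕ := ⌊2 * φ + 1 / 2⌋₊ with hr
    have hr1 : (r : ℝ) ≤ 2 * φ + 1 / 2 := Nat.floor_le (by linarith)
    have hr2 : 2 * φ + 1 / 2 < r + 1 := Nat.lt_floor_add_one _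
    have hr3 : 1 ≤ r := by
      rw [hr, Nat.one_le_floor_iff]
      linarith
    have hrR : r ≤ R := by
      rw [hr, hR]
      apply Nat.floor_le_floor
      linarith
    have h5 := blk_r N Q F r hN1 hF hr3 ε hε (by
        rw [← hφN]
        apply Real.rpow_le_rpow_of_exponent_le hNr.le
        linarith) (by
        rw [← hφN]
        apply Real.rpow_le_rpow_of_exponent_le hNr.le
        linarith) h S hS
    refine h5.trans ?_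
    have h6 : (r : ℝ) ^ r ≤ ((R : ℝ) + 1) ^ R := by
      have h7 : (r : ℝ) ≤ R := by exact_mod_cast hrR
      calc (r : ℝ) ^ r ≤ ((R : ℝ) + 1) ^ r := pow_le_pow_left₀ (Nat.cast_nonneg r) (by linarith) r
        _ ≤ ((R : ℝ) + 1) ^ R := pow_le_pow_right₀ (by
            have : (0 : ℝ) ≤ R := Nat.cast_nonneg R
            linarith) hrR
    gcongr
    linarith

/-- the large conductors -/
lemma high_part (θ ε : ℝ) (hε : 0 < ε) : ∃ C : ℝ, 0 < C ∧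
    ∀ N : ℕ, 3 ≤ N → ∀ Q i0 : ℕ, (Q : ℝ) ≤ (N : ℝ) ^ θ →
    (N : ℝ) ^ (1 / 2 - ε / 4) ≤ 4 * ((2 ^ i0 : ℕ) : ℝ) →
    ∀ S : (q : ℕ) → Finset (DirichletCharacter ℂ q),
    (∀ q ∈ Icc 1 Q, ((S q).card : ℝ) ≤
      (N : ℝ) ^ (-ε) * max ((N : ℝ) ^ (1 / 4 : ℝ)) ((N : ℝ) / q)) →
    ∑ q ∈ Icc 1 Q, (1 / (q : ℝ)) * ∑ χ ∈ blk (S q) (2 ^ i0) Q, gg N q χ ≤
      C * (1 + Real.log Q) ^ 2 * (N : ℝ) ^ (1 - ε / 4) := by
  obtain ⟨C, hC, hb⟩ := blk_all θ ε hε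
  refine ⟨3 * C, by positivity, ?_⟩
  intro N hN Q i0 hQ hi0 S hS
  have hlQ : 0 ≤ Real.log Q := Real.log_natCast_nonneg Q
  have hN0 : (0 : ℝ) < N := by exact_mod_cast (by omega : 0 < N)
  have hNp : 0 < (N : ℝ) ^ (1 - ε / 4) := Real.rpow_pos_of_pos hN0 _
  rcases Nat.eq_zero_or_pos Q with h0 | hQ1
  · subst h0
    simp only [show Icc 1 0 = (∅ : Finset ℕ) from rfl, sum_empty]
    positivity
  have hlog : ∀ f, 2 ≤ f → 2 ^ Nat.log 2 (f - 1) < f ∧ f ≤ 2 * 2 ^ Nat.log 2 (f - 1) := by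
    intro f hf
    have a1 := Nat.pow_log_le_self 2 (by omega : f - 1 ≠ 0)
    have a2 := Nat.lt_pow_succ_log_self (b := 2) (by norm_num) (f - 1)
    rw [pow_succ] at a2
    omega
  have h1 : ∀ q ∈ Icc 1 Q, (1 / (q : ℝ)) * ∑ χ ∈ blk (S q) (2 ^ i0) Q, gg N q χ ≤
      ∑ i ∈ Ico i0 (Nat.log 2 Q + 1), (1 / (q : ℝ)) *
        ∑ χ ∈ blk (S q) (2 ^ i) (2 * 2 ^ i), gg N q χ := by
    intro q hq
    rw [mem_Icc] at hq
    rw [← mul_sum]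
    apply mul_le_mul_of_nonneg_left _ (by positivity)
    have hmaps : ∀ χ ∈ blk (S q) (2 ^ i0) Q,
        Nat.log 2 (χ.conductor - 1) ∈ Ico i0 (Nat.log 2 Q + 1) := by
      intro χ hχ
      rw [mem_blk] at hχ
      have hp : 1 ≤ 2 ^ i0 := Nat.one_le_two_pow
      rw [mem_Ico]
      constructor
      · have := hlog χ.conductor (by omega)
        by_contra hcon
        push Not at hcon
        have h2 : 2 ^ (Nat.log 2 (χ.conductor - 1) + 1) ≤ 2 ^ i0 :=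
          Nat.pow_le_pow_right (by norm_num) (by omega)
        rw [pow_succ] at h2
        omega
      · apply Nat.lt_succ_of_le
        exact Nat.log_mono_right (by omega)
    rw [← sum_fiberwise_of_maps_to hmaps]
    apply sum_le_sum
    intro i _
    apply sum_le_sum_of_subset_of_nonneg
    · intro χ hχ
      rw [mem_filter, mem_blk] at hχ
      rw [mem_blk]
      have hp : 1 ≤ 2 ^ i0 := Nat.one_le_two_pow
      have h3 := hlog χ.conductor (by omega)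
      rw [hχ.2] at h3
      exact ⟨hχ.1.1, hχ.1.2.1, h3.1, h3.2⟩
    · intro χ _ _
      exact gg_nonneg _ _ _
  refine (sum_le_sum h1).trans ?_
  rw [sum_comm]
  have h2 : ∀ i ∈ Ico i0 (Nat.log 2 Q + 1), ∑ q ∈ Icc 1 Q, (1 / (q : ℝ)) *
        ∑ χ ∈ blk (S q) (2 ^ i) (2 * 2 ^ i), gg N q χ ≤
        C * (1 + Real.log Q) * (N : ℝ) ^ (1 - ε / 4) := by
    intro i hi
    rw [mem_Ico] at hi
    apply hb N hN Q (2 ^ i) Nat.one_le_two_pow _ hQ _ S hS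
    · exact (Nat.pow_le_pow_right (by norm_num) (by omega)).trans
        (Nat.pow_log_le_self 2 (by omega))
    · refine hi0.trans ?_
      have h3 : ((2 ^ i0 : ℕ) : ℝ) ≤ ((2 ^ i : ℕ) : ℝ) := by
        exact_mod_cast Nat.pow_le_pow_right (by norm_num) hi.1
      linarith
  refine (sum_le_card_nsmul _ _ _ h2).trans ?_
  rw [nsmul_eq_mul, Nat.card_Ico]
  have h3 : ((Nat.log 2 Q + 1 - i0 : ℕ) : ℝ) ≤ 3 * (1 + Real.log Q) := by
    have h4 : ((Nat.log 2 Q + 1 - i0 : ℕ) : ℝ) ≤ ((Nat.log 2 Q + 1 : ℕ) : ℝ) := by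
      exact_mod_cast Nat.sub_le _ _
    have h5 := nlog_le Q hQ1
    push_cast at h4
    linarith
  calc ((Nat.log 2 Q + 1 - i0 : ℕ) : ℝ) * (C * (1 + Real.log Q) * (N : ℝ) ^ (1 - ε / 4))
      ≤ (3 * (1 + Real.log Q)) * (C * (1 + Real.log Q) * (N : ℝ) ^ (1 - ε / 4)) := by gcongr
    _ = _ := by ring

end Pool.Agent.N766.CS
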