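import Pool.Agent.N766.CS.Cos

/-!
All heights at once.
-/

set_option autoImplicit false

open Finset

namespace Pool.Agent.N766.CS

open Pool.Agent.TH926.EH (log_pow_le log_ge_one)
open Classical

/-- large `N` -/
lemma heights_large (θ ε : ℝ) (hθ : 0 < θ) (hε : 0 < ε) (hε1 : ε ≤ 1 / 4) (U : ℕ) :
    ∃ C : ℝ, 0 < C ∧ ∃ x0 : ℕ, 3 ≤ x0 ∧ ∀ N : ℕ, x0 ≤ N → ∀ Q : ℕ, (Q : ℝ) ≤ (N : ℝ) ^ θ →
    ∀ (H : (q : ℕ) → Subgroup (ZMod q)ˣ) (a : (q : ℕ) → (ZMod q)ˣ) (Y : ℕ → ℕ),
    (∀ q, Y q ≤ N) →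
    ∑ q ∈ (Icc 1 Q).filter (fun q => ((H q).index : ℝ) ≤ lim ε N q),
      (1 / (q : ℝ)) * D (Y q) q (H q) (a q) ≤ C * (N / Real.log N ^ U) := by
  obtain ⟨C1, hC1, hfix⟩ := fixed (2 * θ) (ε / 2) (by linarith) (by linarith) (2 * U + 1)
  obtain ⟨C2, hC2, hlog⟩ := log_pow_le (U + 1) (ε / 4) (by linarith)
  -- the choice of x0
  obtain ⟨x1, hx1⟩ := exists_nat_ge ((2 * C2 + 3) ^ (4 / ε : ℝ))
  refine ⟨8 * 2 ^ (2 * U + 1) * C1 + 4 * (1 + θ), by positivity, max x1 9,
    by have := le_max_right x1 9; omega, ?_⟩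
  intro N hN Q hQ H a Y hY
  have hN9 : 9 ≤ N := (le_max_right _ _).trans hN
  have hN3 : 3 ≤ N := by omega
  have hN0 : (0 : ℝ) < N := by exact_mod_cast (by omega : 0 < N)
  have hN1 : (1 : ℝ) ≤ N := by exact_mod_cast (by omega : 1 ≤ N)
  have hl := log_ge_one hN3
  have hNx1 : ((x1 : ℕ) : ℝ) ≤ N := by exact_mod_cast (le_max_left _ _).trans hN
  -- `2 C2 + 3 ≤ N^(ε/4)`
  have hbig : 2 * C2 + 3 ≤ (N : ℝ) ^ (ε / 4) := by
    have h1 : (2 * C2 + 3) ^ (4 / ε : ℝ) ≤ N := hx1.trans hNx1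
    calc 2 * C2 + 3 = ((2 * C2 + 3) ^ (4 / ε : ℝ)) ^ (ε / 4) := by
          rw [← Real.rpow_mul (by positivity)]
          have : 4 / ε * (ε / 4) = 1 := by field_simp
          rw [this, Real.rpow_one]
      _ ≤ _ := Real.rpow_le_rpow (by positivity) h1 (by positivity)
  -- the grid
  set L : ℝ := Real.log N ^ (U + 1) with hL
  have hL1 : 1 ≤ L := one_le_pow₀ hl
  set J : ℕ := ⌈L⌉₊ with hJ
  have hJ1 : 1 ≤ J := Nat.one_le_ceil_iff.2 (by linarith)
  have hJL : L ≤ J := Nat.le_ceil L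
  have hJL2 : (J : ℝ) ≤ 2 * L := by
    have := Nat.ceil_lt_add_one (by linarith : 0 ≤ L)
    linarith
  have hJ0 : (0 : ℝ) < J := by exact_mod_cast hJ1
  set s : ℕ := N / J + 1 with hs
  have hs1 : 1 ≤ s := by
    rw [hs]
    exact Nat.le_add_left 1 _
  have hsN : N < J * s := by
    rw [hs]
    exact Nat.lt_mul_div_succ N (by omega)
  have hsup : (s : ℝ) ≤ N / J + 1 := by
    rw [hs]
    push_cast
    have : ((N / J : ℕ) : ℝ) ≤ (N : ℝ) / J := Nat.cast_div_le
    linarith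
  -- lower bound for s
  have hLN : 2 * L ≤ (N : ℝ) ^ (ε / 2) := by
    have h1 : L ≤ C2 * (N : ℝ) ^ (ε / 4) := by
      refine le_trans ?_ (hlog N (by omega))
      rw [hL]
      gcongr
      linarith
    have h2 : (N : ℝ) ^ (ε / 2) = (N : ℝ) ^ (ε / 4) * (N : ℝ) ^ (ε / 4) := by
      rw [← Real.rpow_add hN0]
      congr 1
      ring
    rw [h2]
    have h3 : 0 < (N : ℝ) ^ (ε / 4) := by positivity
    nlinarith
  have hslow : (N : ℝ) ^ (1 - ε / 2) ≤ s := by
    have h1 : (N : ℝ) ≤ J * s := by exact_mod_cast hsN.le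
    have h2 : (J : ℝ) ≤ (N : ℝ) ^ (ε / 2) := hJL2.trans hLN
    have h3 : (N : ℝ) ≤ (N : ℝ) ^ (ε / 2) * s := by
      refine h1.trans ?_
      gcongr
    have h4 : (N : ℝ) ^ (1 - ε / 2) = N / (N : ℝ) ^ (ε / 2) := by
      rw [Real.rpow_sub hN0, Real.rpow_one]
    rw [h4, div_le_iff₀ (by positivity)]
    linarith
  -- the heights of the grid
  have hJN : (J : ℝ) ≤ N := by
    refine hJL2.trans (hLN.trans ?_)
    nth_rewrite 2 [← Real.rpow_one (N : ℝ)]
    exact Real.rpow_le_rpow_of_exponent_le hN1 (by linarith)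
  have hgrid : ∀ j ∈ Icc 1 J, (N : ℝ) ^ (1 - ε / 2) ≤ ((j * s : ℕ) : ℝ) ∧
      ((j * s : ℕ) : ℝ) ≤ 2 * N := by
    intro j hj
    rw [mem_Icc] at hj
    constructor
    · refine hslow.trans ?_
      have : s ≤ j * s := Nat.le_mul_of_pos_left s (by omega)
      exact_mod_cast this
    · have h1 : (j : ℝ) ≤ J := by exact_mod_cast hj.2
      push_cast
      calc (j : ℝ) * s ≤ J * (N / J + 1) := by gcongr
        _ = N + J := by field_simp
        _ ≤ 2 * N := by linarith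
  have hhalf : (N : ℝ) ^ (1 / 2 : ℝ) ≤ (N : ℝ) ^ (1 - ε / 2) :=
    Real.rpow_le_rpow_of_exponent_le hN1 (by linarith)
  have hthree : (3 : ℝ) ≤ (N : ℝ) ^ (1 / 2 : ℝ) := by
    have h1 : (9 : ℝ) ≤ N := by exact_mod_cast hN9
    calc (3 : ℝ) = (9 : ℝ) ^ (1 / 2 : ℝ) := by
          rw [← Real.sqrt_eq_rpow]
          rw [show (9 : ℝ) = 3 ^ 2 by norm_num, Real.sqrt_sq (by norm_num)]
      _ ≤ _ := Real.rpow_le_rpow (by norm_num) h1 (by norm_num)
  set W : ℝ := C1 * (2 * N / ((1 / 2) * Real.log N) ^ (2 * U + 1)) with hW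
  set F := (Icc 1 Q).filter (fun q => ((H q).index : ℝ) ≤ lim ε N q) with hF
  have hfixj : ∀ j ∈ Icc 1 J, ∑ q ∈ F, (1 / (q : ℝ)) * D (j * s) q (H q) (a q) ≤ W := by
    intro j hj
    obtain ⟨g1, g2⟩ := hgrid j hj
    have g3 : (3 : ℝ) ≤ ((j * s : ℕ) : ℝ) := hthree.trans (hhalf.trans g1)
    have g4 : 3 ≤ j * s := by exact_mod_cast g3
    have g5 : (Q : ℝ) ≤ ((j * s : ℕ) : ℝ) ^ (2 * θ) := by
      refine hQ.trans ?_
      calc (N : ℝ) ^ θ = ((N : ℝ) ^ (1 / 2 : ℝ)) ^ (2 * θ) := by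
            rw [← Real.rpow_mul hN0.le]
            congr 1
            ring
        _ ≤ _ := Real.rpow_le_rpow (by positivity) (hhalf.trans g1) (by linarith)
    have g6 := hfix (j * s) g4 Q g5 H a
    have g7 : F ⊆ (Icc 1 Q).filter (fun q => ((H q).index : ℝ) ≤ lim (ε / 2) (j * s) q) := by
      intro q hq
      rw [hF, mem_filter] at hq
      rw [mem_filter]
      exact ⟨hq.1, hq.2.trans (lim_le ε hε hε1 N (j * s) q (by omega) g1)⟩
    refine (sum_le_sum_of_subset_of_nonneg g7 fun q _ _ =>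
      mul_nonneg (by positivity) (D_nonneg _ _ _ _)).trans (g6.trans ?_)
    have g8 : (1 / 2) * Real.log N ≤ Real.log ((j * s : ℕ) : ℝ) := by
      rw [← Real.log_rpow hN0]
      exact Real.log_le_log (by positivity) (hhalf.trans g1)
    rw [hW]
    apply mul_le_mul_of_nonneg_left _ hC1.le
    apply div_le_div₀ (by positivity) g2 (by positivity)
    exact pow_le_pow_left₀ (by positivity) g8 _
  -- each modulus
  have hq1 : ∀ q ∈ F, (1 / (q : ℝ)) * D (Y q) q (H q) (a q) ≤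
      2 * ∑ j ∈ Icc 1 J, (1 / (q : ℝ)) * D (j * s) q (H q) (a q) + (1 / (q : ℝ)) * s := by
    intro q _
    rw [← mul_sum]
    have e1 : D (Y q) q (H q) (a q) ≤ 2 * ∑ j ∈ Icc 1 J, D (j * s) q (H q) (a q) + s := by
      set j := Y q / s with hj
      have hjY : j * s ≤ Y q := Nat.div_mul_le_self _ _
      have hjY2 : Y q < (j + 1) * s := by
        have := Nat.lt_mul_div_succ (Y q) (by omega : 0 < s)
        rw [mul_comm] at this
        exact this
      have hjJ : j < J := by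
        rw [hj, Nat.div_lt_iff_lt_mul (by omega)]
        exact lt_of_le_of_lt (hY q) hsN
      have e2 := D_between (j * s) s (Y q) q hjY (by
        have : (j + 1) * s = j * s + s := by ring
        omega) (H q) (a q)
      have e3 : (j * s + s) = (j + 1) * s := by ring
      rw [e3] at e2
      have e4 : D ((j + 1) * s) q (H q) (a q) ≤ ∑ j ∈ Icc 1 J, D (j * s) q (H q) (a q) := by
        apply single_le_sum (f := fun j => D (j * s) q (H q) (a q)) (fun _ _ => D_nonneg _ _ _ _)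
        rw [mem_Icc]
        exact ⟨Nat.le_add_left 1 j, hjJ⟩
      have e5 : D (j * s) q (H q) (a q) ≤ ∑ j ∈ Icc 1 J, D (j * s) q (H q) (a q) := by
        rcases Nat.eq_zero_or_pos j with h0 | h0
        · rw [h0, zero_mul, D_zero]
          exact sum_nonneg fun _ _ => D_nonneg _ _ _ _
        · apply single_le_sum (f := fun j => D (j * s) q (H q) (a q))
            (fun _ _ => D_nonneg _ _ _ _)
          rw [mem_Icc]
          omega
      linarith
    have h0 : (0 : ℝ) ≤ 1 / (q : ℝ) := by positivity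
    calc (1 / (q : ℝ)) * D (Y q) q (H q) (a q)
        ≤ (1 / (q : ℝ)) * (2 * ∑ j ∈ Icc 1 J, D (j * s) q (H q) (a q) + s) :=
          mul_le_mul_of_nonneg_left e1 h0
      _ = _ := by ring
  have hsum : ∑ q ∈ F, (1 / (q : ℝ)) * D (Y q) q (H q) (a q) ≤
      2 * (J * W) + (1 + Real.log Q) * s := by
    refine (sum_le_sum hq1).trans ?_
    rw [sum_add_distrib, ← mul_sum, ← sum_mul, sum_comm]
    have e1 : ∑ j ∈ Icc 1 J, ∑ q ∈ F, (1 / (q : ℝ)) * D (j * s) q (H q) (a q) ≤ J * W := by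
      refine (sum_le_card_nsmul _ _ W hfixj).trans ?_
      rw [Nat.card_Icc, nsmul_eq_mul]
      simp
    have e2 : ∑ q ∈ F, (1 / (q : ℝ)) ≤ 1 + Real.log Q := by
      refine le_trans ?_ (sum_inv_le Q)
      apply sum_le_sum_of_subset_of_nonneg (filter_subset _ _)
      intro q _ _
      positivity
    have e3 : (∑ q ∈ F, (1 / (q : ℝ))) * (s : ℝ) ≤ (1 + Real.log Q) * s := by
      gcongr
    linarith
  refine hsum.trans ?_
  have hlQ : 0 ≤ Real.log Q := Real.log_natCast_nonneg Q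
  have hA : 1 + Real.log Q ≤ (1 + θ) * Real.log N := by
    rcases Nat.eq_zero_or_pos Q with h0 | hQ1
    · subst h0
      rw [Nat.cast_zero, Real.log_zero]
      nlinarith
    · have hQ0 : (0 : ℝ) < Q := by exact_mod_cast hQ1
      have hlQN : Real.log Q ≤ θ * Real.log N := by
        rw [← Real.log_rpow hN0]
        exact Real.log_le_log hQ0 hQ
      nlinarith
  have hlpos : (0 : ℝ) < Real.log N := by linarith
  have hs2 : (s : ℝ) ≤ 2 * (N / L) := by
    have h1 : (N : ℝ) / J ≤ N / L := div_le_div_of_nonneg_left hN0.le (by linarith) hJL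
    have h2 : 1 ≤ (N : ℝ) / L := by
      rw [le_div_iff₀ (by linarith), one_mul]
      linarith
    linarith
  have t1 : 2 * (J * W) ≤ 8 * 2 ^ (2 * U + 1) * C1 * (N / Real.log N ^ U) := by
    have h1 : W = 2 * 2 ^ (2 * U + 1) * C1 * (N / Real.log N ^ (2 * U + 1)) := by
      rw [hW, mul_pow, one_div, inv_pow]
      field_simp
    have h2 : (N : ℝ) / Real.log N ^ (2 * U + 1) * L = N / Real.log N ^ U := by
      rw [hL]
      have : Real.log N ^ (2 * U + 1) = Real.log N ^ U * Real.log N ^ (U + 1) := by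
        rw [← pow_add]; congr 1; ring
      rw [this]
      field_simp
    have hWn : 0 ≤ W := by rw [h1]; positivity
    calc 2 * (J * W) ≤ 2 * ((2 * L) * W) := by gcongr
      _ = 8 * 2 ^ (2 * U + 1) * C1 * (N / Real.log N ^ (2 * U + 1) * L) := by
          rw [h1]; ring
      _ = _ := by rw [h2]
  have t2 : (1 + Real.log Q) * s ≤ 4 * (1 + θ) * (N / Real.log N ^ U) := by
    calc (1 + Real.log Q) * s ≤ ((1 + θ) * Real.log N) * (2 * (N / L)) := by gcongr
      _ = 2 * (1 + θ) * (N / Real.log N ^ U) := by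
          rw [hL, pow_succ]
          field_simp
      _ ≤ _ := by
          have : 0 ≤ (1 + θ) * ((N : ℝ) / Real.log N ^ U) := by positivity
          linarith
  linarith

/-- **all heights** -/
theorem heights (θ ε : ℝ) (hθ : 0 < θ) (hε : 0 < ε) (U : ℕ) :
    ∃ C : ℝ, 0 < C ∧ ∀ N : ℕ, 3 ≤ N → ∀ Q : ℕ, (Q : ℝ) ≤ (N : ℝ) ^ θ →
    ∀ (H : (q : ℕ) → Subgroup (ZMod q)ˣ) (a : (q : ℕ) → (ZMod q)ˣ) (Y : ℕ → ℕ),
    (∀ q, Y q ≤ N) →
    ∑ q ∈ (Icc 1 Q).filter (fun q => ((H q).index : ℝ) ≤ lim ε N q),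
      (1 / (q : ℝ)) * D (Y q) q (H q) (a q) ≤ C * (N / Real.log N ^ U) := by
  obtain ⟨C, hC, x0, hx0, h⟩ := heights_large θ (min ε (1 / 4)) hθ
    (lt_min hε (by norm_num)) (min_le_right _ _) U
  have hx0r : (3 : ℝ) ≤ x0 := by exact_mod_cast hx0
  have hlx := log_ge_one hx0
  refine ⟨C + (1 + θ * Real.log x0) * ((x0 + 1) * x0) * Real.log x0 ^ U, by positivity, ?_⟩
  intro N hN Q hQ H a Y hY
  have hN0 : (0 : ℝ) < N := by exact_mod_cast (by omega : 0 < N)
  have hN1 : (1 : ℝ) ≤ N := by exact_mod_cast (by omega : 1 ≤ N)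
  have hl := log_ge_one hN
  have hNU : 0 < (N : ℝ) / Real.log N ^ U := by positivity
  rcases le_or_gt x0 N with hxN | hxN
  · have h1 := h N hxN Q hQ H a Y hY
    have h2 : (Icc 1 Q).filter (fun q => ((H q).index : ℝ) ≤ lim ε N q) ⊆
        (Icc 1 Q).filter (fun q => ((H q).index : ℝ) ≤ lim (min ε (1 / 4)) N q) := by
      intro q hq
      rw [mem_filter] at hq ⊢
      refine ⟨hq.1, hq.2.trans ?_⟩
      unfold lim
      apply mul_le_mul_of_nonneg_right _ (by positivity)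
      apply Real.rpow_le_rpow_of_exponent_le hN1
      have := min_le_left ε (1 / 4)
      linarith
    refine (sum_le_sum_of_subset_of_nonneg h2 fun q _ _ =>
      mul_nonneg (by positivity) (D_nonneg _ _ _ _)).trans (h1.trans ?_)
    apply mul_le_mul_of_nonneg_right _ hNU.le
    have : 0 ≤ (1 + θ * Real.log x0) * ((x0 + 1) * x0) * Real.log x0 ^ U := by positivity
    linarith
  · have hNx : (N : ℝ) ≤ x0 := by exact_mod_cast hxN.le
    have hlNx : Real.log N ≤ Real.log x0 := Real.log_le_log hN0 hNx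
    have hlQ : 1 + Real.log Q ≤ 1 + θ * Real.log x0 := by
      rcases Nat.eq_zero_or_pos Q with h0 | hQ1
      · subst h0
        rw [Nat.cast_zero, Real.log_zero]
        have : 0 ≤ θ * Real.log x0 := by positivity
        linarith
      · have hQ0 : (0 : ℝ) < Q := by exact_mod_cast hQ1
        have hlQN : Real.log Q ≤ θ * Real.log N := by
          rw [← Real.log_rpow hN0]
          exact Real.log_le_log hQ0 hQ
        nlinarith
    have h1 : ∀ q ∈ (Icc 1 Q).filter (fun q => ((H q).index : ℝ) ≤ lim ε N q),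
        (1 / (q : ℝ)) * D (Y q) q (H q) (a q) ≤ (1 / (q : ℝ)) * ((x0 + 1) * N) := by
      intro q hq
      rw [mem_filter, mem_Icc] at hq
      apply mul_le_mul_of_nonneg_left _ (by positivity)
      refine (D_triv (Y q) N q (hY q) (H q) (a q)).trans ?_
      apply mul_le_mul_of_nonneg_right _ hN0.le
      have := lim_le_self ε hε N q (by omega) hq.1.1
      have h2 := hq.2
      linarith
    refine (sum_le_sum h1).trans ?_
    rw [← sum_mul]
    have h2 : ∑ q ∈ (Icc 1 Q).filter (fun q => ((H q).index : ℝ) ≤ lim ε N q), (1 / (q : ℝ)) ≤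
        1 + θ * Real.log x0 := by
      refine le_trans ?_ ((sum_inv_le Q).trans hlQ)
      apply sum_le_sum_of_subset_of_nonneg (filter_subset _ _)
      intro q _ _
      positivity
    have h3 : Real.log N ^ U ≤ Real.log x0 ^ U := pow_le_pow_left₀ (by linarith) hlNx U
    have h4 : 0 ≤ 1 + θ * Real.log x0 := by positivity
    have h5 : (1 + θ * Real.log x0) * ((x0 + 1) * N) ≤
        (1 + θ * Real.log x0) * ((x0 + 1) * x0) * Real.log x0 ^ U * (N / Real.log N ^ U) := by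
      rw [← mul_div_assoc, le_div_iff₀ (by positivity)]
      calc (1 + θ * Real.log x0) * ((x0 + 1) * N) * Real.log N ^ U
          ≤ (1 + θ * Real.log x0) * ((x0 + 1) * N) * Real.log x0 ^ U := by gcongr
        _ = ((1 + θ * Real.log x0) * (x0 + 1) * Real.log x0 ^ U * N) * 1 := by ring
        _ ≤ ((1 + θ * Real.log x0) * (x0 + 1) * Real.log x0 ^ U * N) * x0 := by
            gcongr
            linarith
        _ = _ := by ring
    have h6 : 0 ≤ C * ((N : ℝ) / Real.log N ^ U) := by positivity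
    calc (∑ q ∈ (Icc 1 Q).filter (fun q => ((H q).index : ℝ) ≤ lim ε N q), (1 / (q : ℝ))) *
          ((x0 + 1) * (N : ℝ))
        ≤ (1 + θ * Real.log x0) * ((x0 + 1) * N) := by gcongr
      _ ≤ _ := h5
      _ ≤ _ := by nlinarith

end Pool.Agent.N766.CS
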