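import Pool.Agent.TH926.EH.Ave

/-!
The large sieve for the powers of the prime character sums.
-/

set_option autoImplicit false

open Finset

namespace Pool.Agent.N766.CS

open Pool.Agent.H398R2.BV (Prim)
open Pool.Agent.Helper112
open Pool.Agent.H441R3.BV (PS)

/-- the primes up to `N` -/
def P (N : ℕ) : Finset ℕ := (Icc 1 N).filter Nat.Prime

/-- `r`-tuples of primes up to `N` -/
def tup (r N : ℕ) : Finset (Fin r → ℕ) := Fintype.piFinset (fun _ : Fin r => P N)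

/-- the number of representations of `n` as a product of `r` primes up to `N` -/
def ca (r N n : ℕ) : ℕ := ((tup r N).filter (fun t => ∏ i, t i = n)).card

lemma mem_P {N p : ℕ} : p ∈ P N ↔ p.Prime ∧ p ≤ N := by
  unfold P
  rw [mem_filter, mem_Icc]
  constructor
  · rintro ⟨⟨_, h⟩, hp⟩; exact ⟨hp, h⟩
  · rintro ⟨hp, h⟩; exact ⟨⟨hp.one_lt.le, h⟩, hp⟩

lemma card_P_le (N : ℕ) : (P N).card ≤ N := by
  unfold P
  refine (card_filter_le _ _).trans ?_
  simp

lemma mem_tup {r N : ℕ} {t : Fin r → ℕ} : t ∈ tup r N ↔ ∀ i, (t i).Prime ∧ t i ≤ N := by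
  unfold tup
  rw [Fintype.mem_piFinset]
  simp only [mem_P]

lemma tup_prod_mem {r N : ℕ} {t : Fin r → ℕ} (ht : t ∈ tup r N) : ∏ i, t i ∈ Icc 1 (N ^ r) := by
  rw [mem_tup] at ht
  rw [mem_Icc]
  constructor
  · exact Nat.one_le_iff_ne_zero.mpr (prod_ne_zero_iff.mpr fun i _ => (ht i).1.ne_zero)
  · calc ∏ i, t i ≤ ∏ _i : Fin r, N := prod_le_prod' fun i _ => (ht i).2
      _ = N ^ r := by simp

lemma PS_eq (N f : ℕ) (ψ : DirichletCharacter ℂ f) : PS N f ψ = ∑ p ∈ P N, ψ (p : ZMod f) := by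
  unfold PS P
  rw [sum_filter]
  apply sum_congr rfl
  intro n _
  split_ifs <;> simp

lemma PS_pow (r N f : ℕ) (ψ : DirichletCharacter ℂ f) :
    PS N f ψ ^ r = ∑ n ∈ Icc 1 (N ^ r), ((ca r N n : ℕ) : ℂ) * ψ (n : ZMod f) := by
  have h1 : PS N f ψ ^ r = ∑ t ∈ tup r N, ψ ((∏ i, t i : ℕ) : ZMod f) := by
    have h2 : PS N f ψ ^ r = ∏ _i : Fin r, ∑ p ∈ P N, ψ (p : ZMod f) := by
      rw [prod_const, card_univ, Fintype.card_fin, PS_eq]
    rw [h2, prod_univ_sum]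
    apply sum_congr rfl
    intro t _
    rw [Nat.cast_prod, map_prod]
  rw [h1, ← sum_fiberwise_of_maps_to (fun t ht => tup_prod_mem ht)]
  apply sum_congr rfl
  intro n _
  unfold ca
  rw [card_eq_sum_ones, Nat.cast_sum, sum_mul]
  apply sum_congr rfl
  intro t ht
  rw [mem_filter] at ht
  rw [ht.2]
  simp

lemma ca_le (r N n : ℕ) : ca r N n ≤ r ^ r := by
  unfold ca
  rcases ((tup r N).filter (fun t => ∏ i, t i = n)).eq_empty_or_nonempty with h | ⟨t0, ht0⟩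
  · rw [h]; simp
  · rw [mem_filter, mem_tup] at ht0
    have hn : n ≠ 0 := by
      rw [← ht0.2]
      exact prod_ne_zero_iff.mpr fun i _ => (ht0.1 i).1.ne_zero
    have h1 : n.primeFactors.card ≤ r := by
      have h2 : n.primeFactors ⊆ univ.image t0 := by
        intro p hp
        rw [Nat.mem_primeFactors] at hp
        rw [← ht0.2] at hp
        obtain ⟨i, _, hi⟩ := (hp.1.prime.dvd_finsetProd_iff _).1 hp.2.1
        rw [mem_image]
        exact ⟨i, mem_univ _, ((Nat.prime_dvd_prime_iff_eq hp.1 (ht0.1 i).1).1 hi).symm⟩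
      refine (card_le_card h2).trans (card_image_le.trans ?_)
      simp
    have h3 : (tup r N).filter (fun t => ∏ i, t i = n) ⊆
        Fintype.piFinset (fun _ : Fin r => n.primeFactors) := by
      intro t ht
      rw [mem_filter, mem_tup] at ht
      rw [Fintype.mem_piFinset]
      intro i
      rw [Nat.mem_primeFactors]
      refine ⟨(ht.1 i).1, ?_, hn⟩
      rw [← ht.2]
      exact dvd_prod_of_mem _ (mem_univ i)
    refine (card_le_card h3).trans ?_
    rw [Fintype.card_piFinset]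
    simp only [prod_const, card_univ, Fintype.card_fin]
    exact Nat.pow_le_pow_left h1 r

lemma sum_ca (r N : ℕ) : ∑ n ∈ Icc 1 (N ^ r), ca r N n ≤ N ^ r := by
  unfold ca
  rw [← card_eq_sum_card_fiberwise (fun t ht => tup_prod_mem ht)]
  unfold tup
  rw [Fintype.card_piFinset]
  simp only [prod_const, card_univ, Fintype.card_fin]
  exact Nat.pow_le_pow_left (card_P_le N) r

lemma sum_ca_sq (r N : ℕ) :
    ∑ n ∈ Icc 1 (N ^ r), ‖((ca r N n : ℕ) : ℂ)‖ ^ 2 ≤ (r : ℝ) ^ r * (N : ℝ) ^ r := by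
  have h1 : ∀ n ∈ Icc 1 (N ^ r), ‖((ca r N n : ℕ) : ℂ)‖ ^ 2 ≤ (r : ℝ) ^ r * (ca r N n : ℝ) := by
    intro n _
    rw [Complex.norm_natCast, sq]
    have : (ca r N n : ℝ) ≤ (r : ℝ) ^ r := by exact_mod_cast ca_le r N n
    exact mul_le_mul_of_nonneg_right this (Nat.cast_nonneg _)
  refine (sum_le_sum h1).trans ?_
  rw [← mul_sum]
  apply mul_le_mul_of_nonneg_left _ (by positivity)
  exact_mod_cast sum_ca r N

open Classical in
/-- **the large sieve for the `r`-th powers** -/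
theorem ls_pow (r N F : ℕ) :
    ∑ f ∈ Icc 1 F, ∑ ψ ∈ Prim f, ‖PS N f ψ‖ ^ (2 * r) ≤
      6 * ((N : ℝ) ^ r + (F : ℝ) ^ 2) * ((r : ℝ) ^ r * (N : ℝ) ^ r) := by
  have h1 := mult_large_sieve (N ^ r) F (fun n => ((ca r N n : ℕ) : ℂ))
  have h2 : ∑ f ∈ Icc 1 F, ∑ ψ ∈ Prim f, ‖PS N f ψ‖ ^ (2 * r) ≤
      ∑ f ∈ Icc 1 F, ((f : ℝ) / (Nat.totient f : ℝ)) *
      ∑ χ ∈ (univ : Finset (DirichletCharacter ℂ f)).filter (fun χ => χ.IsPrimitive),
        ‖∑ n ∈ Icc 1 (N ^ r), ((ca r N n : ℕ) : ℂ) * χ (n : ZMod f)‖ ^ 2 := by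
    apply sum_le_sum
    intro f hf
    rw [mem_Icc] at hf
    have hφ : (0 : ℝ) < Nat.totient f := by exact_mod_cast Nat.totient_pos.mpr (by omega)
    have hφ2 : (Nat.totient f : ℝ) ≤ f := by exact_mod_cast Nat.totient_le f
    have h3 : ∑ ψ ∈ Prim f, ‖PS N f ψ‖ ^ (2 * r) =
        ∑ χ ∈ (univ : Finset (DirichletCharacter ℂ f)).filter (fun χ => χ.IsPrimitive),
        ‖∑ n ∈ Icc 1 (N ^ r), ((ca r N n : ℕ) : ℂ) * χ (n : ZMod f)‖ ^ 2 := by
      unfold Prim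
      apply sum_congr
      · ext χ; simp
      · intro χ _
        rw [← PS_pow, norm_pow, ← pow_mul, mul_comm r 2]
    rw [h3]
    have h4 : 0 ≤ ∑ χ ∈ (univ : Finset (DirichletCharacter ℂ f)).filter (fun χ => χ.IsPrimitive),
        ‖∑ n ∈ Icc 1 (N ^ r), ((ca r N n : ℕ) : ℂ) * χ (n : ZMod f)‖ ^ 2 :=
      sum_nonneg fun _ _ => by positivity
    have h5 : 1 ≤ (f : ℝ) / (Nat.totient f : ℝ) := by
      rw [le_div_iff₀ hφ]; linarith
    nlinarith
  refine h2.trans (h1.trans ?_)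
  push_cast
  exact mul_le_mul_of_nonneg_left (sum_ca_sq r N) (by positivity)

end Pool.Agent.N766.CS
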