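import Pool.Agent.N766.CS.Hts

/-!
Real heights and real exponents.
-/

set_option autoImplicit false

namespace Pool.Agent.N766.CS

open Finset
open Pool.Agent.TH926.EH (log_ge_one)
open Classical

/-- the bound for the index, with a real height -/
noncomputable def limR (ε x : ℝ) (q : ℕ) : ℝ := x ^ (-ε) * max (x ^ (1 / 4 : ℝ)) (x / q)

lemma limR_le (ε x : ℝ) (hε : 0 < ε) (hx : 1 ≤ x) (q : ℕ) (hq : 1 ≤ q) : limR ε x q ≤ x := by
  have hx0 : 0 < x := by linarith
  have hq1 : (1 : ℝ) ≤ q := by exact_mod_cast hq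
  unfold limR
  have h4 : max (x ^ (1 / 4 : ℝ)) (x / q) ≤ x := by
    apply max_le
    · calc x ^ (1 / 4 : ℝ) ≤ x ^ (1 : ℝ) :=
          Real.rpow_le_rpow_of_exponent_le hx (by norm_num)
        _ = x := Real.rpow_one _
    · exact div_le_self hx0.le hq1
  have h5 : x ^ (-ε) ≤ 1 := Real.rpow_le_one_of_one_le_of_nonpos hx (by linarith)
  have h6 : 0 ≤ x ^ (-ε) := Real.rpow_nonneg hx0.le _
  calc x ^ (-ε) * max (x ^ (1 / 4 : ℝ)) (x / q) ≤ 1 * x := by gcongr
    _ = x := one_mul _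

lemma limR_lim (ε x : ℝ) (hε : 0 < ε) (hε1 : ε ≤ 1 / 4) (N q : ℕ) (hN : 1 ≤ N)
    (hNx : (N : ℝ) ≤ x) (hx2 : x ≤ 2 * N) (hbig : 2 ≤ (N : ℝ) ^ (ε / 2)) :
    limR ε x q ≤ lim (ε / 2) N q := by
  have hN0 : (0 : ℝ) < N := by exact_mod_cast hN
  have hx0 : 0 < x := by linarith
  unfold limR lim
  rw [mul_max_of_nonneg _ _ (by positivity), mul_max_of_nonneg _ _ (by positivity)]
  have key : ∀ s : ℝ, 0 ≤ s - ε → s - ε ≤ 1 → x ^ (s - ε) ≤ (N : ℝ) ^ (s - ε / 2) := by
    intro s hs hs1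
    calc x ^ (s - ε) ≤ (2 * N : ℝ) ^ (s - ε) := Real.rpow_le_rpow hx0.le hx2 hs
      _ = (2 : ℝ) ^ (s - ε) * (N : ℝ) ^ (s - ε) := Real.mul_rpow (by norm_num) hN0.le
      _ ≤ (2 : ℝ) ^ (1 : ℝ) * (N : ℝ) ^ (s - ε) := by
          gcongr
          norm_num
      _ ≤ (N : ℝ) ^ (ε / 2) * (N : ℝ) ^ (s - ε) := by
          rw [Real.rpow_one]
          gcongr
      _ = _ := by
          rw [← Real.rpow_add hN0]
          congr 1
          ring
  apply max_le_max
  · rw [← Real.rpow_add hN0, ← Real.rpow_add hx0]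
    have e1 : -ε + 1 / 4 = 1 / 4 - ε := by ring
    have e2 : -(ε / 2) + 1 / 4 = 1 / 4 - ε / 2 := by ring
    rw [e1, e2]
    exact key (1 / 4) (by linarith) (by linarith)
  · rw [← mul_div_assoc, ← mul_div_assoc]
    apply div_le_div_of_nonneg_right _ (Nat.cast_nonneg q)
    have e1 : x ^ (-ε) * x = x ^ (1 - ε) := by
      nth_rewrite 2 [← Real.rpow_one x]
      rw [← Real.rpow_add hx0]
      congr 1
      ring
    have e2 : (N : ℝ) ^ (-(ε / 2)) * N = (N : ℝ) ^ (1 - ε / 2) := by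
      nth_rewrite 2 [← Real.rpow_one (N : ℝ)]
      rw [← Real.rpow_add hN0]
      congr 1
      ring
    rw [e1, e2]
    exact key 1 (by linarith) (by linarith)

lemma limR_mono (ε x : ℝ) (hx : 1 ≤ x) (δ : ℝ) (h : δ ≤ ε) (q : ℕ) :
    limR ε x q ≤ limR δ x q := by
  unfold limR
  apply mul_le_mul_of_nonneg_right _ (by positivity)
  exact Real.rpow_le_rpow_of_exponent_le hx (by linarith)

/-- **the theorem with real heights** -/
theorem real_heights (θ ε A : ℝ) (hθ : 0 < θ) (hε : 0 < ε) :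
    ∃ C : ℝ, 0 < C ∧ ∀ x : ℝ, 3 ≤ x →
    ∀ (H : (q : ℕ) → Subgroup (ZMod q)ˣ) (a : (q : ℕ) → (ZMod q)ˣ) (y : ℕ → ℝ),
    (∀ q, y q ≤ x) →
    ∑ q ∈ (Icc 1 ⌊x ^ θ⌋₊).filter (fun q => ((H q).index : ℝ) ≤ limR ε x q),
      (1 / (q : ℝ)) * D ⌊y q⌋₊ q (H q) (a q) ≤ C * (x / Real.log x ^ A) := by
  set δ : ℝ := min ε (1 / 4) with hδ
  have hδ0 : 0 < δ := lt_min hε (by norm_num)
  have hδ1 : δ ≤ 1 / 4 := min_le_right _ _
  have hδε : δ ≤ ε := min_le_left _ _
  obtain ⟨U, hU⟩ := exists_nat_ge A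
  obtain ⟨C, hC, h⟩ := heights (2 * θ) (δ / 2) (by linarith) (by linarith) U
  obtain ⟨x1, hx1⟩ := exists_nat_ge ((2 : ℝ) ^ (2 / δ : ℝ))
  set X : ℝ := (x1 : ℝ) + 4 with hX
  have hX0 : 0 < X := by positivity
  have hX4 : 4 ≤ X := by
    have : (0 : ℝ) ≤ x1 := Nat.cast_nonneg _
    linarith
  have hlX : 1 ≤ Real.log X := by
    have h3 := log_ge_one (N := 3) le_rfl
    refine h3.trans (Real.log_le_log (by norm_num) ?_)
    push_cast
    linarith
  refine ⟨C * 2 ^ U + X ^ θ * ((X + 1) * X) * Real.log X ^ U, by positivity, ?_⟩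
  intro x hx3 H a y hy
  have hx0 : 0 < x := by linarith
  have hx1' : 1 ≤ x := by linarith
  have hlx : 1 ≤ Real.log x := by
    have h3 := log_ge_one (N := 3) le_rfl
    refine h3.trans (Real.log_le_log (by norm_num) ?_)
    push_cast
    linarith
  have hAU : x / Real.log x ^ U ≤ x / Real.log x ^ A := by
    apply div_le_div_of_nonneg_left hx0.le (Real.rpow_pos_of_pos (by linarith) _)
    rw [← Real.rpow_natCast]
    exact Real.rpow_le_rpow_of_exponent_le hlx hU
  have hxU : 0 < x / Real.log x ^ U := by positivity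
  have hx0U : 0 ≤ X ^ θ * ((X + 1) * X) * Real.log X ^ U := by positivity
  have hCn : 0 ≤ C * 2 ^ U := by positivity
  have hmain : ∑ q ∈ (Icc 1 ⌊x ^ θ⌋₊).filter (fun q => ((H q).index : ℝ) ≤ limR ε x q),
      (1 / (q : ℝ)) * D ⌊y q⌋₊ q (H q) (a q) ≤
      (C * 2 ^ U + X ^ θ * ((X + 1) * X) * Real.log X ^ U) * (x / Real.log x ^ U) := by
    rcases le_or_gt X x with hXx | hXx
    · -- large x
      set N : ℕ := ⌊x⌋₊ with hN
      have hNx : (N : ℝ) ≤ x := Nat.floor_le hx0.le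
      have hNx2 : x < N + 1 := Nat.lt_floor_add_one x
      have hN3 : 3 ≤ N := Nat.le_floor (by push_cast; linarith)
      have hN3r : (3 : ℝ) ≤ N := by exact_mod_cast hN3
      have hN0 : (0 : ℝ) < N := by linarith
      have hx2 : x ≤ 2 * N := by linarith
      have hbig : 2 ≤ (N : ℝ) ^ (δ / 2) := by
        have h1 : (2 : ℝ) ^ (2 / δ : ℝ) ≤ N := by
          refine hx1.trans ?_
          have : (x1 : ℝ) ≤ x - 1 := by linarith
          linarith
        calc (2 : ℝ) = ((2 : ℝ) ^ (2 / δ : ℝ)) ^ (δ / 2) := by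
              rw [← Real.rpow_mul (by norm_num)]
              have : 2 / δ * (δ / 2) = 1 := by field_simp
              rw [this, Real.rpow_one]
          _ ≤ _ := Real.rpow_le_rpow (by positivity) h1 (by positivity)
      have hQ : ((⌊x ^ θ⌋₊ : ℕ) : ℝ) ≤ (N : ℝ) ^ (2 * θ) := by
        refine (Nat.floor_le (by positivity)).trans ?_
        calc x ^ θ ≤ ((N : ℝ) ^ (2 : ℝ)) ^ θ := by
              apply Real.rpow_le_rpow hx0.le _ hθ.le
              rw [Real.rpow_two]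
              nlinarith
          _ = _ := by rw [← Real.rpow_mul hN0.le]
      have h1 := h N hN3 ⌊x ^ θ⌋₊ hQ H a (fun q => ⌊y q⌋₊) (fun q => Nat.floor_le_floor (hy q))
      have h2 : (Icc 1 ⌊x ^ θ⌋₊).filter (fun q => ((H q).index : ℝ) ≤ limR ε x q) ⊆
          (Icc 1 ⌊x ^ θ⌋₊).filter (fun q => ((H q).index : ℝ) ≤ lim (δ / 2) N q) := by
        intro q hq
        rw [mem_filter] at hq ⊢
        exact ⟨hq.1, hq.2.trans ((limR_mono ε x hx1' δ hδε q).trans
          (limR_lim δ x hδ0 hδ1 N q (by omega) hNx hx2 hbig))⟩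
      refine (sum_le_sum_of_subset_of_nonneg h2 fun q _ _ =>
        mul_nonneg (by positivity) (D_nonneg _ _ _ _)).trans (h1.trans ?_)
      have h3 : (1 / 2) * Real.log x ≤ Real.log N := by
        have h4 : x ≤ (N : ℝ) ^ 2 := by nlinarith
        have h5 := Real.log_le_log hx0 h4
        rw [Real.log_pow] at h5
        push_cast at h5
        linarith
      calc C * (N / Real.log N ^ U) ≤ C * (x / ((1 / 2) * Real.log x) ^ U) := by
            apply mul_le_mul_of_nonneg_left _ hC.le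
            apply div_le_div₀ hx0.le hNx (by positivity)
            exact pow_le_pow_left₀ (by positivity) h3 _
        _ = C * 2 ^ U * (x / Real.log x ^ U) := by
            rw [mul_pow, one_div, inv_pow]
            field_simp
        _ ≤ _ := by
            apply mul_le_mul_of_nonneg_right _ hxU.le
            linarith
    · -- small x
      have h1 : ∀ q ∈ (Icc 1 ⌊x ^ θ⌋₊).filter (fun q => ((H q).index : ℝ) ≤ limR ε x q),
          (1 / (q : ℝ)) * D ⌊y q⌋₊ q (H q) (a q) ≤ (X + 1) * X := by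
        intro q hq
        rw [mem_filter, mem_Icc] at hq
        have hq1 : (1 : ℝ) ≤ q := by exact_mod_cast hq.1.1
        have h2 := D_triv ⌊y q⌋₊ ⌊x⌋₊ q (Nat.floor_le_floor (hy q)) (H q) (a q)
        have h3 := D_nonneg ⌊y q⌋₊ q (H q) (a q)
        have h4 : (1 / (q : ℝ)) ≤ 1 := by
          rw [div_le_one (by linarith)]
          exact hq1
        have h5 : ((⌊x⌋₊ : ℕ) : ℝ) ≤ X := (Nat.floor_le hx0.le).trans hXx.le
        have h6 : ((H q).index : ℝ) ≤ X :=
          (hq.2.trans (limR_le ε x hε hx1' q hq.1.1)).trans hXx.le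
        have h7 : 0 ≤ 1 / (q : ℝ) := by positivity
        calc (1 / (q : ℝ)) * D ⌊y q⌋₊ q (H q) (a q) ≤ 1 * D ⌊y q⌋₊ q (H q) (a q) := by gcongr
          _ = D ⌊y q⌋₊ q (H q) (a q) := one_mul _
          _ ≤ (((H q).index : ℝ) + 1) * ((⌊x⌋₊ : ℕ) : ℝ) := h2
          _ ≤ (X + 1) * X := by gcongr
      refine (sum_le_card_nsmul _ _ _ h1).trans ?_
      rw [nsmul_eq_mul]
      have h2 : ((((Icc 1 ⌊x ^ θ⌋₊).filter
          (fun q => ((H q).index : ℝ) ≤ limR ε x q)).card : ℕ) : ℝ) ≤ X ^ θ := by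
        have h3 : (((Icc 1 ⌊x ^ θ⌋₊).filter
          (fun q => ((H q).index : ℝ) ≤ limR ε x q)).card) ≤ ⌊x ^ θ⌋₊ := by
          refine (card_filter_le _ _).trans ?_
          rw [Nat.card_Icc]
          omega
        calc _ ≤ ((⌊x ^ θ⌋₊ : ℕ) : ℝ) := by exact_mod_cast h3
          _ ≤ x ^ θ := Nat.floor_le (by positivity)
          _ ≤ X ^ θ := Real.rpow_le_rpow hx0.le hXx.le hθ.le
      have h3 : Real.log x ^ U ≤ Real.log X ^ U :=
        pow_le_pow_left₀ (by linarith) (Real.log_le_log hx0 hXx.le) U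
      have h4 : (X ^ θ) * ((X + 1) * X) ≤
          X ^ θ * ((X + 1) * X) * Real.log X ^ U * (x / Real.log x ^ U) := by
        rw [← mul_div_assoc, le_div_iff₀ (by positivity)]
        calc (X ^ θ) * ((X + 1) * X) * Real.log x ^ U
            ≤ (X ^ θ) * ((X + 1) * X) * Real.log X ^ U := by gcongr
          _ = (X ^ θ) * ((X + 1) * X) * Real.log X ^ U * 1 := by ring
          _ ≤ _ := by gcongr
      calc _ ≤ (X ^ θ) * ((X + 1) * X) := by gcongr
        _ ≤ X ^ θ * ((X + 1) * X) * Real.log X ^ U * (x / Real.log x ^ U) := h4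
        _ ≤ _ := by
          apply mul_le_mul_of_nonneg_right _ hxU.le
          linarith
  refine hmain.trans ?_
  apply mul_le_mul_of_nonneg_left hAU
  positivity

end Pool.Agent.N766.CS
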